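import Mathlib

/-!
# MP_ae5b4e_an, general involutions: the model of the cuspidal cubic

`Jf T = T + 1 / T` is an affine coordinate on a tangent line of the cuspidal cubic.
-/

noncomputable section

namespace Pool.Agent.MP_ae5b4e_an_GENL

open Filter Topology

/-- `T + 1 / T` -/
def Jf (T : ℂ) : ℂ := T + T⁻¹

/-- the derivative of `Jf` -/
def Jd (T : ℂ) : ℂ := 1 - (T ^ 2)⁻¹

/-- principal square root -/
def rt (z : ℂ) : ℂ := Complex.exp (Complex.log z / 2)

theorem rt_sq {z : ℂ} (hz : z ≠ 0) : rt z ^ 2 = z := by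
  unfold rt
  rw [← Complex.exp_nat_mul]
  push_cast
  rw [mul_div_cancel₀ _ (two_ne_zero' ℂ), Complex.exp_log hz]

theorem rt_re {z : ℂ} (hz : z ∈ Complex.slitPlane) : 0 < (rt z).re := by
  unfold rt
  rw [Complex.exp_re]
  have h1 : (Complex.log z / 2).im = z.arg / 2 := by
    rw [show (2:ℂ) = ((2:ℝ) : ℂ) by norm_num, Complex.div_ofReal_im, Complex.log_im]
  have h2 := Complex.neg_pi_lt_arg z
  have h3 : z.arg < Real.pi := lt_of_le_of_ne (Complex.arg_le_pi z)
    (Complex.mem_slitPlane_iff_arg.1 hz).1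
  have h4 : 0 < Real.cos ((Complex.log z / 2).im) := by
    rw [h1]
    exact Real.cos_pos_of_mem_Ioo ⟨by linarith, by linarith⟩
  positivity

theorem rt_diff {z : ℂ} (hz : z ∈ Complex.slitPlane) : DifferentiableAt ℂ rt z := by
  unfold rt
  exact ((Complex.differentiableAt_log hz).div_const 2).cexp

theorem rt_comp {f : ℂ → ℂ} {z : ℂ} (hz : f z ∈ Complex.slitPlane) (hf : DifferentiableAt ℂ f z) :
    DifferentiableAt ℂ (fun w => rt (f w)) z :=
  DifferentiableAt.comp (g := rt) z (rt_diff hz) hf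

theorem pw2_diff (z : ℂ) : DifferentiableAt ℂ (fun w : ℂ => w ^ 2) z := by fun_prop

/-! ### real and imaginary parts -/

theorem Jf_re (T : ℂ) : (Jf T).re = T.re * (1 + 1 / Complex.normSq T) := by
  simp only [Jf, Complex.add_re, Complex.inv_re]
  ring

theorem Jf_im (T : ℂ) : (Jf T).im = T.im * (1 - 1 / Complex.normSq T) := by
  simp only [Jf, Complex.add_im, Complex.inv_im]
  ring

theorem Jf_diff {T : ℂ} (hT : T ≠ 0) : HasDerivAt Jf (Jd T) T := by
  have h := (hasDerivAt_id T).add (hasDerivAt_inv hT)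
  refine h.congr_deriv ?_
  simp only [Jd]
  ring

theorem Jd_diff {T : ℂ} (hT : T ≠ 0) : DifferentiableAt ℂ Jd T := by
  unfold Jd
  exact (differentiableAt_const _).sub ((differentiableAt_id.pow 2).inv (pow_ne_zero 2 hT))

theorem Jd_ne {T : ℂ} (h1 : T ≠ 1) (h2 : T ≠ -1) : Jd T ≠ 0 := by
  unfold Jd
  intro h
  have h3 : T ^ 2 = 1 := by
    have : (T ^ 2)⁻¹ = 1 := by linear_combination -h
    exact inv_eq_one.1 this
  rcases sq_eq_one_iff_of_side_conditions h3 with h4 | h4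
  · exact h1 h4
  · exact h2 h4
where
  sq_eq_one_iff_of_side_conditions {T : ℂ} (h : T ^ 2 = 1) : T = 1 ∨ T = -1 := by
    have : (T - 1) * (T + 1) = 0 := by linear_combination h
    rcases mul_eq_zero.1 this with h | h
    · exact Or.inl (sub_eq_zero.1 h)
    · exact Or.inr (eq_neg_of_add_eq_zero_left h)

theorem normSq_gt {T : ℂ} (h : 1 < ‖T‖) : 1 < Complex.normSq T := by
  rw [Complex.normSq_eq_norm_sq]
  nlinarith [norm_nonneg T]

theorem normSq_lt {T : ℂ} (h : ‖T‖ < 1) : Complex.normSq T < 1 := by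
  rw [Complex.normSq_eq_norm_sq]
  nlinarith [norm_nonneg T]

/-! ### the outer root -/

/-- the right half plane without the segment `(0, 2]` -/
def Out : Set ℂ := {J | 0 < J.re ∧ (J.im ≠ 0 ∨ 2 < J.re)}

/-- the root of `T + 1 / T = J` outside the unit circle -/
def To (J : ℂ) : ℂ := J / 2 * (1 + rt (1 - 4 / J ^ 2))

theorem Out_open : IsOpen Out := by
  have h1 : IsOpen {J : ℂ | 0 < J.re} := isOpen_lt continuous_const Complex.continuous_re
  have h2 : IsOpen {J : ℂ | J.im ≠ 0} := isOpen_ne_fun Complex.continuous_im continuous_const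
  have h3 : IsOpen {J : ℂ | 2 < J.re} := isOpen_lt continuous_const Complex.continuous_re
  exact h1.inter (h2.union h3)

theorem Out_ne {J : ℂ} (hJ : J ∈ Out) : J ≠ 0 := by
  rintro rfl
  simpa using hJ.1

theorem Out_slit {J : ℂ} (hJ : J ∈ Out) : 1 - 4 / J ^ 2 ∈ Complex.slitPlane := by
  by_contra h
  rw [Complex.mem_slitPlane_iff, not_or, not_lt, not_not] at h
  obtain ⟨h1, h2⟩ := h
  have hJ0 := Out_ne hJ
  set u := 1 - 4 / J ^ 2 with hu
  have hur : u = (u.re : ℂ) := Complex.ext rfl (by simp [h2])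
  have h3 : J ^ 2 * (1 - u) = 4 := by
    rw [hu]; field_simp; ring
  have h4 : J ^ 2 * ((1 - u.re : ℝ) : ℂ) = 4 := by
    rw [← h3]; push_cast; rw [← hur]
  have him : (J ^ 2).im * (1 - u.re) = 0 := by
    have := congrArg Complex.im h4
    simpa using this
  have hre : (J ^ 2).re * (1 - u.re) = 4 := by
    have := congrArg Complex.re h4
    simpa using this
  have hpos : 0 < 1 - u.re := by linarith
  have him0 : (J ^ 2).im = 0 := by
    rcases mul_eq_zero.1 him with h | h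
    · exact h
    · linarith
  have e1 : (J ^ 2).im = 2 * J.re * J.im := by rw [pow_two]; simp [Complex.mul_im]; ring
  have e2 : (J ^ 2).re = J.re ^ 2 - J.im ^ 2 := by rw [pow_two]; simp [Complex.mul_re]; ring
  have him1 : J.im = 0 := by
    rw [e1] at him0
    rcases mul_eq_zero.1 him0 with h | h
    · have := hJ.1; linarith
    · exact h
  have h5 : 2 < J.re := by
    rcases hJ.2 with h | h
    · exact absurd him1 h
    · exact h
  rw [e2, him1] at hre
  nlinarith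

theorem To_root {J : ℂ} (hJ : J ∈ Out) : To J ≠ 0 ∧ Jf (To J) = J ∧ 1 < ‖To J‖ := by
  have hJ0 := Out_ne hJ
  have hs := Out_slit hJ
  set s := rt (1 - 4 / J ^ 2) with hsdef
  have hs2 : s ^ 2 = 1 - 4 / J ^ 2 := rt_sq (Complex.slitPlane_ne_zero hs)
  have hsre : 0 < s.re := rt_re hs
  have hprod : J / 2 * (1 + s) * (J / 2 * (1 - s)) = 1 := by
    have : J ^ 2 * s ^ 2 = J ^ 2 - 4 := by rw [hs2]; field_simp
    linear_combination -(1/4) * this
  have hT0 : J / 2 * (1 + s) ≠ 0 := left_ne_zero_of_mul_eq_one hprod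
  have hinv : (J / 2 * (1 + s))⁻¹ = J / 2 * (1 - s) := inv_eq_of_mul_eq_one_right hprod
  refine ⟨hT0, ?_, ?_⟩
  · show J / 2 * (1 + s) + (J / 2 * (1 + s))⁻¹ = J
    rw [hinv]; ring
  · show 1 < ‖J / 2 * (1 + s)‖
    have h1 : ‖1 - s‖ < ‖1 + s‖ := by
      rw [← sq_lt_sq₀ (norm_nonneg _) (norm_nonneg _), ← Complex.normSq_eq_norm_sq,
        ← Complex.normSq_eq_norm_sq, Complex.normSq_apply, Complex.normSq_apply]
      simp only [Complex.sub_re, Complex.sub_im, Complex.add_re, Complex.add_im, Complex.one_re,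
        Complex.one_im]
      nlinarith
    have h2 : ‖J / 2 * (1 - s)‖ < ‖J / 2 * (1 + s)‖ := by
      rw [norm_mul, norm_mul]
      exact mul_lt_mul_of_pos_left h1 (norm_pos_iff.2 (div_ne_zero hJ0 two_ne_zero))
    have h3 : ‖J / 2 * (1 + s)‖ * ‖J / 2 * (1 - s)‖ = 1 := by
      rw [← norm_mul, hprod, norm_one]
    nlinarith [norm_nonneg (J / 2 * (1 - s)), norm_nonneg (J / 2 * (1 + s))]

theorem To_diff {J : ℂ} (hJ : J ∈ Out) : DifferentiableAt ℂ To J := by
  have hJ0 := Out_ne hJ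
  unfold To
  refine (differentiableAt_id.div_const 2).mul ((differentiableAt_const _).add ?_)
  refine rt_comp (f := fun J : ℂ => 1 - 4 / J ^ 2) (Out_slit hJ) ?_
  exact (differentiableAt_const _).sub
    ((differentiableAt_const _).div (pw2_diff J) (pow_ne_zero 2 hJ0))

theorem To_re {J : ℂ} (hJ : J ∈ Out) : 0 < (To J).re := by
  obtain ⟨h0, h1, h2⟩ := To_root hJ
  have h3 := Jf_re (To J)
  rw [h1] at h3
  have h4 := normSq_gt h2
  have h5 : 0 < 1 + 1 / Complex.normSq (To J) := by positivity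
  have h6 := hJ.1
  rw [h3] at h6
  exact (mul_pos_iff_of_pos_right h5).1 h6

theorem To_im {J : ℂ} (hJ : J ∈ Out) :
    J.im = (To J).im * (1 - 1 / Complex.normSq (To J)) ∧
      0 < 1 - 1 / Complex.normSq (To J) := by
  obtain ⟨h0, h1, h2⟩ := To_root hJ
  have h3 := Jf_im (To J)
  rw [h1] at h3
  have h4 := normSq_gt h2
  refine ⟨h3, ?_⟩
  rw [sub_pos, div_lt_one (by linarith)]
  exact h4

/-- uniqueness of the outer root -/
theorem To_unique {T : ℂ} (hT : 1 < ‖T‖) (hJ : Jf T ∈ Out) : To (Jf T) = T := by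
  obtain ⟨h0, h1, h2⟩ := To_root hJ
  have hT0 : T ≠ 0 := by
    rintro rfl
    simp at hT
    linarith
  set S := To (Jf T) with hS
  have h3 : (S - T) * (S * T - 1) = 0 := by
    have : S + S⁻¹ = T + T⁻¹ := h1
    field_simp at this
    linear_combination this
  rcases mul_eq_zero.1 h3 with h | h
  · exact sub_eq_zero.1 h
  · exfalso
    have h4 : ‖S‖ * ‖T‖ = 1 := by
      rw [← norm_mul, sub_eq_zero.1 h, norm_one]
    nlinarith

theorem To_norm_ge {J : ℂ} (hJ : J ∈ Out) : ‖J‖ - 1 ≤ ‖To J‖ := by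
  obtain ⟨h0, h1, h2⟩ := To_root hJ
  have h3 : ‖J‖ ≤ ‖To J‖ + ‖(To J)⁻¹‖ := by
    conv_lhs => rw [← h1]
    exact norm_add_le _ _
  have h4 : ‖(To J)⁻¹‖ ≤ 1 := by
    rw [norm_inv]
    exact inv_le_one_of_one_le₀ h2.le
  linarith

/-! ### the two roots over the strip `0 < Re J < 2` -/

/-- the strip -/
def Strip : Set ℂ := {J | 0 < J.re ∧ J.re < 2}

/-- the root in the lower half plane -/
def Tm (J : ℂ) : ℂ := (J - Complex.I * rt (4 - J ^ 2)) / 2

/-- the root in the upper half plane -/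
def Tp (J : ℂ) : ℂ := (J + Complex.I * rt (4 - J ^ 2)) / 2

theorem Strip_slit {J : ℂ} (hJ : J ∈ Strip) : 4 - J ^ 2 ∈ Complex.slitPlane := by
  rw [Complex.mem_slitPlane_iff]
  left
  have e2 : (J ^ 2).re = J.re ^ 2 - J.im ^ 2 := by rw [pow_two]; simp [Complex.mul_re]; ring
  rw [Complex.sub_re, e2]
  have : (4 : ℂ).re = 4 := by norm_num
  rw [this]
  obtain ⟨h1, h2⟩ := hJ
  nlinarith [sq_nonneg J.im]

theorem Strip_prod {J : ℂ} (hJ : J ∈ Strip) : Tp J * Tm J = 1 := by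
  have hs := Strip_slit hJ
  have hs2 := rt_sq (Complex.slitPlane_ne_zero hs)
  unfold Tp Tm
  have hI := Complex.I_sq
  linear_combination (1/4) * hs2 - (1/4) * (rt (4 - J ^ 2)) ^ 2 * hI

theorem Tp_ne {J : ℂ} (hJ : J ∈ Strip) : Tp J ≠ 0 := left_ne_zero_of_mul_eq_one (Strip_prod hJ)

theorem Tm_ne {J : ℂ} (hJ : J ∈ Strip) : Tm J ≠ 0 := right_ne_zero_of_mul_eq_one (Strip_prod hJ)

theorem Tm_eq {J : ℂ} (hJ : J ∈ Strip) : Tm J = (Tp J)⁻¹ :=
  (inv_eq_of_mul_eq_one_right (Strip_prod hJ)).symm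

theorem Tp_eq {J : ℂ} (hJ : J ∈ Strip) : Tp J = (Tm J)⁻¹ := by
  rw [Tm_eq hJ, inv_inv]

theorem Jf_Tp {J : ℂ} (hJ : J ∈ Strip) : Jf (Tp J) = J := by
  unfold Jf
  rw [← Tm_eq hJ]
  unfold Tp Tm
  ring

theorem Jf_Tm {J : ℂ} (hJ : J ∈ Strip) : Jf (Tm J) = J := by
  unfold Jf
  rw [← Tp_eq hJ]
  unfold Tp Tm
  ring

theorem Tp_re {J : ℂ} (hJ : J ∈ Strip) : 0 < (Tp J).re := by
  have h3 := Jf_re (Tp J)
  rw [Jf_Tp hJ] at h3
  have h4 : 0 < Complex.normSq (Tp J) := Complex.normSq_pos.2 (Tp_ne hJ)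
  have h5 : 0 < 1 + 1 / Complex.normSq (Tp J) := by positivity
  have h6 := hJ.1
  rw [h3] at h6
  exact (mul_pos_iff_of_pos_right h5).1 h6

theorem Tm_re {J : ℂ} (hJ : J ∈ Strip) : 0 < (Tm J).re := by
  have h3 := Jf_re (Tm J)
  rw [Jf_Tm hJ] at h3
  have h4 : 0 < Complex.normSq (Tm J) := Complex.normSq_pos.2 (Tm_ne hJ)
  have h5 : 0 < 1 + 1 / Complex.normSq (Tm J) := by positivity
  have h6 := hJ.1
  rw [h3] at h6
  exact (mul_pos_iff_of_pos_right h5).1 h6

theorem Tp_im {J : ℂ} (hJ : J ∈ Strip) : 0 < (Tp J).im ∧ (Tm J).im < 0 := by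
  have h1 : (Tp J - Tm J) = Complex.I * rt (4 - J ^ 2) := by unfold Tp Tm; ring
  have h2 : (Tp J).im - (Tm J).im = (rt (4 - J ^ 2)).re := by
    have := congrArg Complex.im h1
    simpa using this
  have h3 := rt_re (Strip_slit hJ)
  have h4 : (Tm J).im = -(Tp J).im / Complex.normSq (Tp J) := by
    rw [Tm_eq hJ, Complex.inv_im]
  have h5 : 0 < Complex.normSq (Tp J) := Complex.normSq_pos.2 (Tp_ne hJ)
  have h6 : 0 < (Tp J).im := by
    by_contra h
    push Not at h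
    have : 0 ≤ -(Tp J).im / Complex.normSq (Tp J) := div_nonneg (by linarith) h5.le
    rw [← h4] at this
    linarith
  refine ⟨h6, ?_⟩
  rw [h4, neg_div]
  have : 0 < (Tp J).im / Complex.normSq (Tp J) := div_pos h6 h5
  linarith

theorem Strip_diff {J : ℂ} (hJ : J ∈ Strip) : DifferentiableAt ℂ Tp J ∧ DifferentiableAt ℂ Tm J := by
  have h : DifferentiableAt ℂ (fun J : ℂ => Complex.I * rt (4 - J ^ 2)) J := by
    refine (differentiableAt_const _).mul
      (rt_comp (f := fun J : ℂ => 4 - J ^ 2) (Strip_slit hJ) ?_)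
    exact (differentiableAt_const _).sub (pw2_diff J)
  exact ⟨(differentiableAt_id.add h).div_const 2, (differentiableAt_id.sub h).div_const 2⟩

theorem Tm_out {J : ℂ} (hJ : J ∈ Strip) (h : J.im < 0) : 1 < ‖Tm J‖ := by
  have h3 := Jf_im (Tm J)
  rw [Jf_Tm hJ] at h3
  have h4 := (Tp_im hJ).2
  have h5 : 0 < Complex.normSq (Tm J) := Complex.normSq_pos.2 (Tm_ne hJ)
  have h6 : 0 < 1 - 1 / Complex.normSq (Tm J) := by
    by_contra h'
    push Not at h'
    nlinarith
  have h7 : 1 < Complex.normSq (Tm J) := by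
    rw [sub_pos, div_lt_one h5] at h6
    exact h6
  rw [Complex.normSq_eq_norm_sq] at h7
  nlinarith [norm_nonneg (Tm J)]

theorem Tp_out {J : ℂ} (hJ : J ∈ Strip) (h : 0 < J.im) : 1 < ‖Tp J‖ := by
  have h3 := Jf_im (Tp J)
  rw [Jf_Tp hJ] at h3
  have h4 := (Tp_im hJ).1
  have h5 : 0 < Complex.normSq (Tp J) := Complex.normSq_pos.2 (Tp_ne hJ)
  have h6 : 0 < 1 - 1 / Complex.normSq (Tp J) := by
    by_contra h'
    push Not at h'
    nlinarith
  have h7 : 1 < Complex.normSq (Tp J) := by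
    rw [sub_pos, div_lt_one h5] at h6
    exact h6
  rw [Complex.normSq_eq_norm_sq] at h7
  nlinarith [norm_nonneg (Tp J)]

/-- the outer one of the two roots has a large norm -/
theorem norm_ge_of_root {T : ℂ} (hT : 1 < ‖T‖) : ‖Jf T‖ - 1 ≤ ‖T‖ := by
  have h3 : ‖Jf T‖ ≤ ‖T‖ + ‖T⁻¹‖ := norm_add_le _ _
  have h4 : ‖T⁻¹‖ ≤ 1 := by
    rw [norm_inv]
    exact inv_le_one_of_one_le₀ hT.le
  linarith

end Pool.Agent.MP_ae5b4e_an_GENL
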