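import Mathlib
import Pool.Agent.Lib.MP_ae5b4e_an_GENL.Jouk

/-!
# MP_ae5b4e_an, general involutions: descending along `J = T + 1 / T`
-/

noncomputable section

namespace Pool.Agent.MP_ae5b4e_an_GENL

open Filter Topology

theorem Jf_inv (T : ℂ) : Jf T⁻¹ = Jf T := by
  unfold Jf
  rw [inv_inv, add_comm]

theorem Jd_inv {T : ℂ} (h : T ≠ 0) : Jd T⁻¹ = -T ^ 2 * Jd T := by
  unfold Jd
  field_simp
  ring

theorem Jf_sub {T S : ℂ} (hT : T ≠ 0) (hS : S ≠ 0) :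
    Jf T - Jf S = (T - S) * (1 - (T * S)⁻¹) := by
  unfold Jf
  field_simp
  ring

theorem root_cases {T S : ℂ} (hT : T ≠ 0) (hS : S ≠ 0) (h : Jf S = Jf T) : S = T ∨ S = T⁻¹ := by
  have h1 := Jf_sub hS hT
  rw [h, sub_self] at h1
  rcases mul_eq_zero.1 h1.symm with h2 | h2
  · exact Or.inl (sub_eq_zero.1 h2)
  · right
    have h3 : (S * T)⁻¹ = 1 := (sub_eq_zero.1 h2).symm
    have h4 : S * T = 1 := inv_eq_one.1 h3
    exact eq_inv_of_mul_eq_one_left h4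

theorem exists_root (J : ℂ) : ∃ T : ℂ, T ≠ 0 ∧ Jf T = J ∧ 1 ≤ ‖T‖ := by
  obtain ⟨s, hs⟩ := IsAlgClosed.exists_pow_nat_eq (J ^ 2 - 4) (n := 2) (by norm_num)
  have h1 : (J + s) / 2 * ((J - s) / 2) = 1 := by linear_combination -(1/4) * hs
  have h2 : (J + s) / 2 ≠ 0 := left_ne_zero_of_mul_eq_one h1
  have h3 : (J - s) / 2 ≠ 0 := right_ne_zero_of_mul_eq_one h1
  have h4 : ((J + s) / 2)⁻¹ = (J - s) / 2 := inv_eq_of_mul_eq_one_right h1
  have h5 : Jf ((J + s) / 2) = J := by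
    unfold Jf
    rw [h4]
    ring
  rcases le_total 1 ‖(J + s) / 2‖ with h6 | h6
  · exact ⟨_, h2, h5, h6⟩
  · refine ⟨(J - s) / 2, h3, ?_, ?_⟩
    · rw [← h4, Jf_inv, h5]
    · rw [← h4, norm_inv]
      exact (one_le_inv₀ (norm_pos_iff.2 h2)).2 h6

/-- a root of norm at least one -/
def Tg (J : ℂ) : ℂ := (exists_root J).choose

theorem Tg_ne (J : ℂ) : Tg J ≠ 0 := (exists_root J).choose_spec.1

theorem Jf_Tg (J : ℂ) : Jf (Tg J) = J := (exists_root J).choose_spec.2.1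

theorem Tg_norm (J : ℂ) : 1 ≤ ‖Tg J‖ := (exists_root J).choose_spec.2.2

theorem Jf_analytic {T : ℂ} (h : T ≠ 0) : AnalyticAt ℂ Jf T := by
  unfold Jf
  exact analyticAt_id.add (analyticAt_id.inv h)

theorem Jd_analytic {T : ℂ} (h : T ≠ 0) : AnalyticAt ℂ Jd T := by
  unfold Jd
  exact analyticAt_const.sub ((analyticAt_id.pow 2).inv (pow_ne_zero 2 h))

theorem Jf_open {T0 : ℂ} (h0 : T0 ≠ 0) : 𝓝 (Jf T0) ≤ map Jf (𝓝 T0) := by
  refine (Jf_analytic h0).eventually_constant_or_nhds_le_map_nhds.resolve_left ?_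
  intro h
  have h1 : ∀ᶠ T in 𝓝[≠] T0, Jf T = Jf T0 := h.filter_mono nhdsWithin_le_nhds
  have h2 : ∀ᶠ T in 𝓝[≠] T0, T ≠ T0⁻¹ := by
    by_cases h3 : T0 = T0⁻¹
    · rw [← h3]
      exact self_mem_nhdsWithin
    · exact (eventually_ne_nhds h3).filter_mono nhdsWithin_le_nhds
  have h3 : ∀ᶠ T in 𝓝[≠] T0, T ≠ 0 := (eventually_ne_nhds h0).filter_mono nhdsWithin_le_nhds
  have h4 : ∀ᶠ T in 𝓝[≠] T0, T ≠ T0 := self_mem_nhdsWithin
  obtain ⟨T, h5, h6, h7, h8⟩ := (h1.and (h2.and (h3.and h4))).exists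
  rcases root_cases h0 h7 h5 with h9 | h9
  · exact h8 h9
  · exact h6 h9

theorem nhdsNE_le_map {T0 : ℂ} (h0 : T0 ≠ 0) : 𝓝[≠] (Jf T0) ≤ map Jf (𝓝[≠] T0) := by
  intro s hs
  rw [mem_map, mem_nhdsWithin_iff_eventually, ] at hs
  have h1 : ∀ᶠ T in 𝓝 T0, Jf T ∈ s ∪ {Jf T0} := by
    filter_upwards [hs] with T hT
    by_cases h : T = T0
    · rw [h]; exact Or.inr rfl
    · exact Or.inl (hT h)
  have h2 : s ∪ {Jf T0} ∈ 𝓝 (Jf T0) := Jf_open h0 h1
  rw [mem_nhdsWithin_iff_eventually]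
  filter_upwards [h2] with J hJ hne
  exact hJ.resolve_right hne

theorem Jd_ev_ne (T0 : ℂ) : ∀ᶠ T in 𝓝[≠] T0, Jd T ≠ 0 := by
  have h1 : ∀ a : ℂ, ∀ᶠ T in 𝓝[≠] T0, T ≠ a := by
    intro a
    by_cases h3 : T0 = a
    · rw [← h3]
      exact self_mem_nhdsWithin
    · exact (eventually_ne_nhds h3).filter_mono nhdsWithin_le_nhds
  filter_upwards [h1 1, h1 (-1)] with T h2 h3
  exact Jd_ne h2 h3

theorem ev_ne (T0 a : ℂ) : ∀ᶠ T in 𝓝[≠] T0, T ≠ a := by
  by_cases h3 : T0 = a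
  · rw [← h3]
    exact self_mem_nhdsWithin
  · exact (eventually_ne_nhds h3).filter_mono nhdsWithin_le_nhds

theorem ev_ev {T0 : ℂ} {p : ℂ → Prop} (h : ∀ᶠ T in 𝓝[≠] T0, p T) :
    ∀ᶠ T in 𝓝[≠] T0, ∀ᶠ S in 𝓝 T, p S := by
  rw [eventually_nhdsWithin_iff] at h ⊢
  filter_upwards [h.eventually_nhds] with T hT hne
  filter_upwards [hT, eventually_ne_nhds hne] with S hS hS'
  exact hS hS'

theorem Jf_strict {T : ℂ} (h : T ≠ 0) : HasStrictDerivAt Jf (Jd T) T := by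
  have h1 := (Jf_analytic h).hasStrictDerivAt
  rwa [(Jf_diff h).deriv] at h1

/-- a function `L` on the `J`-plane whose pull back is meromorphic is meromorphic -/
theorem mero_descend {F L : ℂ → ℂ} {T0 : ℂ} (h0 : T0 ≠ 0) (hF : MeromorphicAt F T0)
    (h : ∀ᶠ T in 𝓝[≠] T0, L (Jf T) = F T) : MeromorphicAt L (Jf T0) := by
  have h1 : ∀ᶠ T in 𝓝[≠] T0, DifferentiableAt ℂ L (Jf T) := by
    filter_upwards [ev_ev h, hF.eventually_analyticAt, Jd_ev_ne T0, ev_ne T0 0] with T hT1 hT2 hT3 hT4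
    have hs := Jf_strict hT4
    set ψ := hs.localInverse Jf (Jd T) T hT3 with hψ
    have h2 : HasStrictDerivAt ψ (Jd T)⁻¹ (Jf T) := hs.to_localInverse hT3
    have h3 : ψ (Jf T) = T := (hs.eventually_left_inverse hT3).self_of_nhds
    have h4 : ∀ᶠ J in 𝓝 (Jf T), Jf (ψ J) = J := hs.eventually_right_inverse hT3
    have h5 : Tendsto ψ (𝓝 (Jf T)) (𝓝 T) := by
      have := h2.hasDerivAt.continuousAt.tendsto
      rwa [h3] at this
    have h6 : L =ᶠ[𝓝 (Jf T)] fun J => F (ψ J) := by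
      filter_upwards [h4, h5.eventually hT1] with J hJ1 hJ2
      rw [← hJ2, hJ1]
    have h7 : DifferentiableAt ℂ (fun J => F (ψ J)) (Jf T) := by
      refine DifferentiableAt.comp (g := F) (Jf T) ?_ h2.hasDerivAt.differentiableAt
      rw [h3]
      exact hT2.differentiableAt
    exact h7.congr_of_eventuallyEq h6
  have h2 : ∀ᶠ J in 𝓝[≠] (Jf T0), DifferentiableAt ℂ L J := nhdsNE_le_map h0 h1
  obtain ⟨n, hn⟩ := hF
  have h3 : Tendsto (fun J => (J - Jf T0) ^ (n + 1) • L J) (𝓝[≠] (Jf T0)) (𝓝 0) := by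
    refine Tendsto.mono_left ?_ (nhdsNE_le_map h0)
    rw [tendsto_map'_iff]
    have h4 : Tendsto (fun T => (1 - (T * T0)⁻¹) ^ (n + 1) * (T - T0) * ((T - T0) ^ n • F T))
        (𝓝[≠] T0) (𝓝 0) := by
      have h5 : ContinuousAt (fun T => (1 - (T * T0)⁻¹) ^ (n + 1) * (T - T0) *
          ((T - T0) ^ n • F T)) T0 := by
        refine ContinuousAt.mul (ContinuousAt.mul ?_ (by fun_prop)) hn.continuousAt
        refine ContinuousAt.pow (continuousAt_const.sub ?_) _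
        exact ContinuousAt.inv₀ (by fun_prop) (mul_ne_zero h0 h0)
      have h6 := h5.tendsto
      simp only [sub_self, mul_zero, zero_mul] at h6
      exact h6.mono_left nhdsWithin_le_nhds
    refine h4.congr' ?_
    filter_upwards [h, ev_ne T0 0] with T hT1 hT2
    simp only [Function.comp_apply, smul_eq_mul]
    rw [hT1, Jf_sub hT2 h0, mul_pow, pow_succ (T - T0) n]
    ring
  refine ⟨n + 1, ?_⟩
  refine Complex.analyticAt_of_differentiable_on_punctured_nhds_of_continuousAt ?_ ?_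
  · filter_upwards [h2] with J hJ
    have h8 : DifferentiableAt ℂ (fun J : ℂ => (J - Jf T0) ^ (n + 1)) J := by fun_prop
    exact h8.smul hJ
  · rw [continuousAt_iff_punctured_nhds]
    simpa using h3

end Pool.Agent.MP_ae5b4e_an_GENL
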