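import Mathlib
import Pool.Agent.Lib.MP_ae5b4e_an_GENL.FlexA

/-!
# MP_ae5b4e_an, general involutions: meromorphic continuation at an ordinary flex
-/

noncomputable section

namespace Pool.Agent.MP_ae5b4e_an_GENL

open Filter Topology

/-- A homogeneous logarithmic derivative at an ordinary flex, in the coordinate `J = T + 1 / T`. -/
structure FlexSol (d : ℂ) (Λ : ℂ → ℂ) (R : ℝ) : Prop where
  ana : ∀ J : ℂ, R < ‖J‖ → DifferentiableAt ℂ Λ J
  lim : Tendsto (fun J => J * Λ J) (cocompact ℂ) (𝓝 (-1))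
  odd : ∀ J : ℂ, R < ‖J‖ → R < ‖3 * d + 1 - J‖ → Λ (3 * d + 1 - J) = -Λ J
  ef : ∀ T : ℂ, R < ‖T‖ → Λ (Jf T) * Jd T =
    d * ((T + 1)⁻¹ - (T - 2)⁻¹) + Λ (3 * d + 1 + Jf (T - 1)) * Jd (T - 1)

/-- the map `M` -/
def MF (d T : ℂ) : ℂ := 3 * d + 1 + Jf (T - 1)

/-- the right hand side of the functional equation -/
def RE (d : ℂ) (L : ℂ → ℂ) (T : ℂ) : ℂ :=
  d * ((T + 1)⁻¹ - (T - 2)⁻¹) + L (MF d T) * Jd (T - 1)

theorem FlexSol.analytic {d : ℂ} {Λ : ℂ → ℂ} {R : ℝ} (h : FlexSol d Λ R) {J : ℂ} (hJ : R < ‖J‖) :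
    AnalyticAt ℂ Λ J := by
  have ho : IsOpen {J : ℂ | R < ‖J‖} := isOpen_lt continuous_const continuous_norm
  exact DifferentiableOn.analyticAt (fun z hz => (h.ana z hz).differentiableWithinAt)
    (ho.mem_nhds hJ)

theorem MF_sub {d T : ℂ} :
    MF d T = Jf T + 3 * d + (T - 1)⁻¹ - T⁻¹ := by
  unfold MF Jf
  ring

theorem MF_re {d T : ℂ} (h1 : 1 ≤ ‖T‖) (h2 : T ≠ 1) :
    (Jf T).re + (3 * d.re - 3 / 2) ≤ (MF d T).re := by
  have h0 : T ≠ 0 := by
    rintro rfl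
    simp at h1
    linarith
  rw [MF_sub]
  have h3 : -(1 / 2) ≤ ((T - 1)⁻¹).re := by
    rw [Complex.inv_re]
    have h4 : 0 < Complex.normSq (T - 1) := Complex.normSq_pos.2 (sub_ne_zero.2 h2)
    rw [le_div_iff₀ h4]
    have h5 : Complex.normSq (T - 1) = Complex.normSq T - 2 * T.re + 1 := by
      simp only [Complex.normSq_apply, Complex.sub_re, Complex.sub_im, Complex.one_re,
        Complex.one_im]
      ring
    have h6 : 1 ≤ Complex.normSq T := by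
      rw [Complex.normSq_eq_norm_sq]
      nlinarith
    rw [h5]
    simp only [Complex.sub_re, Complex.one_re]
    linarith
  have h4 : (T⁻¹).re ≤ 1 := by
    refine (Complex.re_le_norm _).trans ?_
    rw [norm_inv]
    exact inv_le_one_of_one_le₀ h1
  have h5 : (Jf T + 3 * d + (T - 1)⁻¹ - T⁻¹).re =
      (Jf T).re + 3 * d.re + ((T - 1)⁻¹).re - (T⁻¹).re := by
    simp
  rw [h5]
  linarith

theorem Jf_norm_ge' {S : ℂ} (hS : 1 ≤ ‖S‖) : ‖S‖ - 1 ≤ ‖Jf S‖ := by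
  unfold Jf
  have h1 : ‖S‖ ≤ ‖S + S⁻¹‖ + ‖S⁻¹‖ := by
    have := norm_sub_le (S + S⁻¹) (S⁻¹)
    simpa using this
  have h2 : ‖S⁻¹‖ ≤ 1 := by
    rw [norm_inv]
    exact inv_le_one_of_one_le₀ hS
  linarith

theorem MF_norm {d T : ℂ} (h : 2 ≤ ‖T‖) : ‖T‖ - 2 - ‖3 * d + 1‖ ≤ ‖MF d T‖ := by
  have h1 : ‖T‖ - 1 ≤ ‖T - 1‖ := by
    have := norm_sub_norm_le T 1
    simpa using this
  have h2 := Jf_norm_ge' (S := T - 1) (by linarith)
  have h3 : ‖Jf (T - 1)‖ ≤ ‖MF d T‖ + ‖3 * d + 1‖ := by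
    have := norm_sub_le (MF d T) (3 * d + 1)
    simpa [MF] using this
  linarith

theorem norm_Tg_ge (J : ℂ) : ‖J‖ - 1 ≤ ‖Tg J‖ := by
  have h1 := Jf_Tg J
  have h2 := Tg_norm J
  have h3 : ‖J‖ ≤ ‖Tg J‖ + ‖(Tg J)⁻¹‖ := by
    conv_lhs => rw [← h1]
    exact norm_add_le _ _
  have h4 : ‖(Tg J)⁻¹‖ ≤ 1 := by
    rw [norm_inv]
    exact inv_le_one_of_one_le₀ h2
  linarith

theorem MF_analytic {d T : ℂ} (h : T ≠ 1) : AnalyticAt ℂ (MF d) T := by
  have h1 : AnalyticAt ℂ (fun T : ℂ => Jf (T - 1)) T :=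
    AnalyticAt.comp (g := Jf) (f := fun T : ℂ => T - 1) (Jf_analytic (sub_ne_zero.2 h))
      (by fun_prop)
  exact analyticAt_const.add h1

theorem Jd1_analytic {T : ℂ} (h : T ≠ 1) : AnalyticAt ℂ (fun T : ℂ => Jd (T - 1)) T :=
  AnalyticAt.comp (g := Jd) (f := fun T : ℂ => T - 1) (Jd_analytic (sub_ne_zero.2 h))
    (by fun_prop)

theorem rat_mero (d T0 : ℂ) :
    MeromorphicAt (fun T : ℂ => d * ((T + 1)⁻¹ - (T - 2)⁻¹)) T0 := by
  have h1 : MeromorphicAt (fun T : ℂ => T + 1) T0 := by fun_prop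
  have h2 : MeromorphicAt (fun T : ℂ => T - 2) T0 := by fun_prop
  exact (MeromorphicAt.const d T0).mul (h1.inv.sub h2.inv)

theorem RE_mero {d : ℂ} {L : ℂ → ℂ} {T0 : ℂ} (h : T0 ≠ 1) (hL : MeromorphicAt L (MF d T0)) :
    MeromorphicAt (RE d L) T0 := by
  have h1 : MeromorphicAt (fun T => L (MF d T)) T0 := hL.comp_analyticAt (MF_analytic h)
  exact (rat_mero d T0).add (h1.mul (Jd1_analytic h).meromorphicAt)

/-! ### near `T = 1` -/

theorem tendsto_S : Tendsto (fun T : ℂ => (1 - T)⁻¹) (𝓝[≠] 1) (cocompact ℂ) := by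
  rw [← Metric.cobounded_eq_cocompact]
  refine Filter.tendsto_inv₀_nhdsNE_zero.comp ?_
  rw [tendsto_nhdsWithin_iff]
  constructor
  · have : ContinuousAt (fun T : ℂ => 1 - T) 1 := by fun_prop
    have h := this.tendsto
    simp only [sub_self] at h
    exact h.mono_left nhdsWithin_le_nhds
  · filter_upwards [self_mem_nhdsWithin] with T hT
    exact sub_ne_zero.2 (Ne.symm hT)

theorem tendsto_Jf_cc : Tendsto Jf (cocompact ℂ) (cocompact ℂ) := by
  rw [← Metric.cobounded_eq_cocompact]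
  rw [← tendsto_norm_atTop_iff_cobounded]
  have h1 : Tendsto (fun S : ℂ => ‖S‖ - 1) (Bornology.cobounded ℂ) atTop :=
    tendsto_atTop_add_const_right _ (-1) tendsto_norm_cobounded_atTop
  refine tendsto_atTop_mono' _ ?_ h1
  filter_upwards [tendsto_norm_cobounded_atTop.eventually_ge_atTop 1] with S hS
  exact Jf_norm_ge' hS

theorem tendsto_const_sub_cc (c : ℂ) : Tendsto (fun S : ℂ => c - S) (cocompact ℂ) (cocompact ℂ) := by
  rw [← Metric.cobounded_eq_cocompact]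
  rw [← tendsto_norm_atTop_iff_cobounded]
  have h1 : Tendsto (fun S : ℂ => ‖S‖ - ‖c‖) (Bornology.cobounded ℂ) atTop :=
    tendsto_atTop_add_const_right _ (-‖c‖) tendsto_norm_cobounded_atTop
  refine tendsto_atTop_mono (fun S => ?_) h1
  have := norm_sub_norm_le S c
  rw [norm_sub_rev S c] at this
  exact this

theorem ev_norm {f : Filter ℂ} {g : ℂ → ℂ} (h : Tendsto g f (cocompact ℂ)) (R : ℝ) :
    ∀ᶠ T in f, R < ‖g T‖ := by
  rw [← Metric.cobounded_eq_cocompact, ← tendsto_norm_atTop_iff_cobounded] at h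
  exact h.eventually_gt_atTop R

theorem Jf_neg (T : ℂ) : Jf (-T) = -Jf T := by
  unfold Jf
  rw [inv_neg]
  ring

theorem MF_S {d T : ℂ} : MF d T = 3 * d + 1 - Jf (1 - T)⁻¹ := by
  unfold MF
  have : T - 1 = -(1 - T) := by ring
  rw [this, Jf_neg, Jf_inv]
  ring

theorem tendsto_MF (d : ℂ) : Tendsto (MF d) (𝓝[≠] 1) (cocompact ℂ) := by
  have h1 := (tendsto_const_sub_cc (3 * d + 1)).comp (tendsto_Jf_cc.comp tendsto_S)
  refine h1.congr (fun T => ?_)
  simp only [Function.comp_apply, MF_S]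

/-- the invariance of `R(T) dT` under `T → 1 / T` near `T = 1` -/
theorem flex_inv_one {d : ℂ} {Λ : ℂ → ℂ} {R : ℝ} (h : FlexSol d Λ R) :
    ∀ᶠ T in 𝓝[≠] (1 : ℂ), RE d Λ T + RE d Λ T⁻¹ / T ^ 2 = 0 := by
  have hS := tendsto_S
  have hS' : Tendsto (fun T : ℂ => 1 - (1 - T)⁻¹) (𝓝[≠] 1) (cocompact ℂ) :=
    (tendsto_const_sub_cc 1).comp hS
  have h1 := ev_norm hS (max R 2)
  have h2 := ev_norm (tendsto_Jf_cc.comp hS) R
  have h3 := ev_norm ((tendsto_const_sub_cc (3 * d + 1)).comp (tendsto_Jf_cc.comp hS)) R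
  have h4 := ev_norm (tendsto_Jf_cc.comp hS') R
  have h5 := ev_norm ((tendsto_const_sub_cc (3 * d + 1)).comp (tendsto_Jf_cc.comp hS')) R
  filter_upwards [h1, h2, h3, h4, h5, ev_ne 1 1, ev_ne 1 0] with T h1 h2 h3 h4 h5 hT1 hT0
  simp only [Function.comp_apply] at h2 h3 h4 h5
  set S : ℂ := (1 - T)⁻¹ with hSdef
  rw [max_lt_iff] at h1
  have hS0 : S ≠ 0 := inv_ne_zero (sub_ne_zero.2 (Ne.symm hT1))
  have hTS : T = 1 - S⁻¹ := by rw [hSdef, inv_inv]; ring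
  have hS1 : S - 1 ≠ 0 := by
    intro h6
    have : S = 1 := sub_eq_zero.1 h6
    rw [this] at h1
    have := h1.2
    norm_num at this
  have hS2 : S - 2 ≠ 0 := by
    intro h6
    have : S = 2 := sub_eq_zero.1 h6
    rw [this] at h1
    have := h1.2
    simp at this
  have hS3 : S + 1 ≠ 0 := by
    intro h6
    have : S = -1 := eq_neg_of_add_eq_zero_left h6
    rw [this] at h1
    have := h1.2
    norm_num at this
  have hS4 : 2 * S - 1 ≠ 0 := by
    intro h6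
    have h7 : S = 1 / 2 := by linear_combination (1/2) * h6
    rw [h7] at h1
    have := h1.2
    norm_num at this
  have hS5 : 1 - S ≠ 0 := by
    intro h6
    apply hS1
    linear_combination -h6
  have hS6 : 2 - S ≠ 0 := by
    intro h6
    apply hS2
    linear_combination -h6
  have hTi : T⁻¹ = S / (S - 1) := by
    rw [hTS]
    field_simp
  -- the functional equation at `S`
  have hef := h.ef S h1.1
  have e1 : 3 * d + 1 + Jf (S - 1) = 3 * d + 1 - Jf (1 - S) := by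
    have : S - 1 = -(1 - S) := by ring
    rw [this, Jf_neg]
    ring
  rw [e1, h.odd (Jf (1 - S)) h4 h5] at hef
  have e2 : MF d T = 3 * d + 1 - Jf S := MF_S
  have e3 : MF d T⁻¹ = 3 * d + 1 - Jf (1 - S) := by
    rw [MF_S]
    congr 1
    have : (1 - T⁻¹)⁻¹ = 1 - S := by
      rw [hTi]
      have h6 : 1 - S / (S - 1) = -(S - 1)⁻¹ := by field_simp; ring
      rw [h6, inv_neg, inv_inv]
      ring
    rw [this]
  unfold RE
  rw [e2, e3, h.odd (Jf S) h2 h3, h.odd (Jf (1 - S)) h4 h5]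
  set a := Λ (Jf S)
  set b := Λ (Jf (1 - S))
  have f1 : (T + 1)⁻¹ = S / (2 * S - 1) := by
    have : T + 1 = (2 * S - 1) / S := by rw [hTS]; field_simp; ring
    rw [this, inv_div]
  have f2 : (T - 2)⁻¹ = -(S / (S + 1)) := by
    have : T - 2 = -((S + 1) / S) := by rw [hTS]; field_simp; ring
    rw [this, inv_neg, inv_div]
  have f3 : (T⁻¹ + 1)⁻¹ = (S - 1) / (2 * S - 1) := by
    have : T⁻¹ + 1 = (2 * S - 1) / (S - 1) := by rw [hTi]; field_simp; ring
    rw [this, inv_div]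
  have f4 : (T⁻¹ - 2)⁻¹ = (S - 1) / (2 - S) := by
    have : T⁻¹ - 2 = (2 - S) / (S - 1) := by rw [hTi]; field_simp; ring
    rw [this, inv_div]
  have f5 : Jd (T - 1) = 1 - S ^ 2 := by
    unfold Jd
    have : T - 1 = -S⁻¹ := by rw [hTS]; ring
    rw [this]
    field_simp
  have f6 : Jd (T⁻¹ - 1) = 1 - (1 - S) ^ 2 := by
    unfold Jd
    have : T⁻¹ - 1 = (S - 1)⁻¹ := by rw [hTi]; field_simp; ring
    rw [this]
    field_simp
    ring
  have f7 : T ^ 2 = ((S - 1) / S) ^ 2 := by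
    rw [hTS]
    field_simp
  rw [f1, f2, f3, f4, f5, f6, f7]
  have g1 : a * (1 - (S ^ 2)⁻¹) + b * (1 - ((S - 1) ^ 2)⁻¹) -
      d * ((S + 1)⁻¹ - (S - 2)⁻¹) = 0 := by
    unfold Jd at hef
    linear_combination hef
  have g2 : d * (S / (2 * S - 1) - -(S / (S + 1))) + -a * (1 - S ^ 2) +
      (d * ((S - 1) / (2 * S - 1) - (S - 1) / (2 - S)) + -b * (1 - (1 - S) ^ 2)) /
        ((S - 1) / S) ^ 2 = S ^ 2 * (a * (1 - (S ^ 2)⁻¹) + b * (1 - ((S - 1) ^ 2)⁻¹) -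
      d * ((S + 1)⁻¹ - (S - 2)⁻¹)) := by
    have h7 : (2 - S) = -(S - 2) := by ring
    have h8 : S / (2 * S - 1) + (S - 1) / (2 * S - 1) / ((S - 1) / S) ^ 2 = S / (S - 1) := by
      have h10 : (S - 1) / (2 * S - 1) / ((S - 1) / S) ^ 2 =
          S ^ 2 / ((2 * S - 1) * (S - 1)) := by
        field_simp
      rw [h10, div_add_div _ _ hS4 (mul_ne_zero hS4 hS1), div_eq_div_iff
        (mul_ne_zero hS4 (mul_ne_zero hS4 hS1)) hS1]
      ring
    have h9 : S / (S - 1) + S / (S + 1) - (S - 1) / (2 - S) / ((S - 1) / S) ^ 2 +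
        S ^ 2 * ((S + 1)⁻¹ - (S - 2)⁻¹) = 0 := by
      rw [h7]
      field_simp
      ring
    have h11 : -a * (1 - S ^ 2) = S ^ 2 * (a * (1 - (S ^ 2)⁻¹)) := by
      field_simp
      ring
    have h12 : -b * (1 - (1 - S) ^ 2) / ((S - 1) / S) ^ 2 =
        S ^ 2 * (b * (1 - ((S - 1) ^ 2)⁻¹)) := by
      field_simp
      ring
    rw [add_div, h12, h11]
    linear_combination d * h8 + d * h9
  rw [g2, g1, mul_zero]

theorem lim_one {d : ℂ} {Λ : ℂ → ℂ} {R : ℝ} (h : FlexSol d Λ R) :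
    Tendsto (fun T => (T - 1) * RE d Λ T) (𝓝[≠] (1 : ℂ)) (𝓝 1) := by
  have h1 : Tendsto (fun T : ℂ => MF d T * Λ (MF d T)) (𝓝[≠] 1) (𝓝 (-1)) :=
    h.lim.comp (tendsto_MF d)
  have h2 : Tendsto (fun T : ℂ => ((T - 1) ^ 2 - 1) / ((3 * d + 1) * (T - 1) + (T - 1) ^ 2 + 1))
      (𝓝[≠] 1) (𝓝 (-1)) := by
    have h3 : ContinuousAt (fun T : ℂ => ((T - 1) ^ 2 - 1) /
        ((3 * d + 1) * (T - 1) + (T - 1) ^ 2 + 1)) 1 := by
      refine ContinuousAt.div (by fun_prop) (by fun_prop) ?_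
      norm_num
    have h4 := h3.tendsto
    norm_num at h4
    exact h4.mono_left nhdsWithin_le_nhds
  have h3 : Tendsto (fun T : ℂ => (T - 1) * (d * ((T + 1)⁻¹ - (T - 2)⁻¹))) (𝓝[≠] 1) (𝓝 0) := by
    have h3 : ContinuousAt (fun T : ℂ => (T - 1) * (d * ((T + 1)⁻¹ - (T - 2)⁻¹))) 1 := by
      refine ContinuousAt.mul (by fun_prop) (continuousAt_const.mul (ContinuousAt.sub ?_ ?_))
      · exact ContinuousAt.inv₀ (by fun_prop) (by norm_num)
      · exact ContinuousAt.inv₀ (by fun_prop) (by norm_num)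
    have h4 := h3.tendsto
    simp only [sub_self, zero_mul] at h4
    exact h4.mono_left nhdsWithin_le_nhds
  have h4 := h3.add (h1.mul h2)
  have h5 : (0 : ℂ) + -1 * -1 = 1 := by norm_num
  rw [h5] at h4
  refine h4.congr' ?_
  have h6 := ev_norm (tendsto_MF d) 0
  filter_upwards [h6, ev_ne 1 1] with T hT1 hT2
  have hM : MF d T ≠ 0 := norm_pos_iff.1 hT1
  have hu : T - 1 ≠ 0 := sub_ne_zero.2 hT2
  have h7 : MF d T = ((3 * d + 1) * (T - 1) + (T - 1) ^ 2 + 1) / (T - 1) := by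
    unfold MF Jf
    field_simp
    ring
  have h8 : (3 * d + 1) * (T - 1) + (T - 1) ^ 2 + 1 ≠ 0 := by
    intro h9
    rw [h9, zero_div] at h7
    exact hM h7
  have h9 : MF d T * (((T - 1) ^ 2 - 1) / ((3 * d + 1) * (T - 1) + (T - 1) ^ 2 + 1)) =
      (T - 1) * Jd (T - 1) := by
    rw [h7]
    unfold Jd
    generalize (3 * d + 1) * (T - 1) + (T - 1) ^ 2 + 1 = q at h8
    field_simp
  unfold RE
  linear_combination Λ (MF d T) * h9

theorem RE_mero_one {d : ℂ} {Λ : ℂ → ℂ} {R : ℝ} (h : FlexSol d Λ R) :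
    MeromorphicAt (RE d Λ) 1 := by
  have h1 : ∀ᶠ T in 𝓝[≠] (1 : ℂ), DifferentiableAt ℂ (RE d Λ) T := by
    have h2 : ∀ᶠ T in 𝓝 (1 : ℂ), T ≠ 2 := eventually_ne_nhds (by norm_num)
    have h3 : ∀ᶠ T in 𝓝 (1 : ℂ), T ≠ -1 := eventually_ne_nhds (by norm_num)
    filter_upwards [ev_norm (tendsto_MF d) R, ev_ne 1 1, h2.filter_mono nhdsWithin_le_nhds,
      h3.filter_mono nhdsWithin_le_nhds] with T h4 h5 h6 h7
    have h8 : DifferentiableAt ℂ (fun T => Λ (MF d T)) T :=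
      DifferentiableAt.comp (g := Λ) T (h.ana _ h4) (MF_analytic h5).differentiableAt
    have h9 : DifferentiableAt ℂ (fun T : ℂ => (T + 1)⁻¹) T :=
      (differentiableAt_id.add_const 1).inv (by
        intro h; exact h7 (eq_neg_of_add_eq_zero_left h))
    have h10 : DifferentiableAt ℂ (fun T : ℂ => (T - 2)⁻¹) T :=
      (differentiableAt_id.sub_const 2).inv (sub_ne_zero.2 h6)
    exact ((h9.sub h10).const_mul d).add (h8.mul (Jd1_analytic h5).differentiableAt)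
  refine ⟨2, ?_⟩
  refine Complex.analyticAt_of_differentiable_on_punctured_nhds_of_continuousAt ?_ ?_
  · filter_upwards [h1] with T hT
    have h8 : DifferentiableAt ℂ (fun J : ℂ => (J - 1) ^ 2) T := by fun_prop
    exact h8.smul hT
  · rw [continuousAt_iff_punctured_nhds]
    have h2 : Tendsto (fun T : ℂ => T - 1) (𝓝[≠] 1) (𝓝 0) := by
      have : ContinuousAt (fun T : ℂ => T - 1) 1 := by fun_prop
      have h := this.tendsto
      simp only [sub_self] at h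
      exact h.mono_left nhdsWithin_le_nhds
    have h3 := h2.mul (lim_one h)
    simp only [zero_mul] at h3
    simp only [sub_self, ne_eq, OfNat.ofNat_ne_zero, not_false_eq_true, zero_pow, zero_smul]
    refine h3.congr (fun T => ?_)
    simp only [smul_eq_mul]
    ring

end Pool.Agent.MP_ae5b4e_an_GENL
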