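import Mathlib
import Pool.Agent.Lib.MP_ae5b4e_an_GENL.Jouk

/-!
# MP_ae5b4e_an, general involutions: the bound `Re d ≤ 1/2` at an ordinary cusp
-/

noncomputable section

namespace Pool.Agent.MP_ae5b4e_an_GENL

open Filter Topology

/-- A homogeneous logarithmic derivative at an ordinary cusp, in the coordinate `J = T + 1 / T`. -/
structure CuspSol (d : ℂ) (Λ : ℂ → ℂ) (R : ℝ) : Prop where
  ana : ∀ J : ℂ, R < ‖J‖ → DifferentiableAt ℂ Λ J
  lim : Tendsto (fun J => J * Λ J) (cocompact ℂ) (𝓝 (-1))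
  odd : ∀ J : ℂ, R < ‖J‖ → R < ‖3 * d - 1 - J‖ → Λ (3 * d - 1 - J) = -Λ J
  ec : ∀ T : ℂ, R < ‖T‖ → Λ (Jf T) * Jd T =
    d * ((T + 2)⁻¹ - (T - 1)⁻¹) + Λ (3 * d - 1 + Jf (T + 1)) * Jd (T + 1)

/-- the right hand side of the functional equation -/
def EC (d : ℂ) (L : ℂ → ℂ) (T : ℂ) : ℂ :=
  d * ((T + 2)⁻¹ - (T - 1)⁻¹) + L (3 * d - 1 + Jf (T + 1)) * Jd (T + 1)

/-! ### geometry of `T ↦ T + 1` -/

theorem normSq_add_one (T : ℂ) : Complex.normSq (T + 1) = Complex.normSq T + 2 * T.re + 1 := by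
  simp only [Complex.normSq_apply, Complex.add_re, Complex.add_im, Complex.one_re, Complex.one_im]
  ring

theorem Jf_add_one {T : ℂ} (h0 : T ≠ 0) (h1 : T + 1 ≠ 0) :
    Jf (T + 1) = Jf T + 1 - (T * (T + 1))⁻¹ := by
  unfold Jf
  field_simp
  ring

theorem Jf_add_one_re {T : ℂ} (h1 : 1 ≤ Complex.normSq T) (h2 : 0 ≤ T.re) :
    (Jf T).re + 1 / 4 ≤ (Jf (T + 1)).re := by
  have h3 : T ≠ 0 := by
    rintro rfl
    simp at h1
    linarith
  have h5 := normSq_add_one T
  have h4 : T + 1 ≠ 0 := by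
    intro h
    rw [h] at h5
    simp at h5
    linarith
  rw [Jf_add_one h3 h4]
  have h6 : (T * (T + 1))⁻¹.re ≤ 3 / 4 := by
    refine le_trans (Complex.re_le_norm _) ?_
    rw [norm_inv]
    have h7 : (4 / 3 : ℝ) ≤ ‖T * (T + 1)‖ := by
      have h8 : (2 : ℝ) ≤ ‖T * (T + 1)‖ ^ 2 := by
        rw [← Complex.normSq_eq_norm_sq, Complex.normSq_mul, h5]
        nlinarith
      nlinarith [norm_nonneg (T * (T + 1))]
    calc ‖T * (T + 1)‖⁻¹ ≤ (4 / 3 : ℝ)⁻¹ := inv_anti₀ (by norm_num) h7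
      _ = 3 / 4 := by norm_num
  simp only [Complex.sub_re, Complex.add_re, Complex.one_re]
  linarith

/-- `T + 1` for `T` in the upper right quadrant -/
theorem Jf_add_one_im {T : ℂ} (h1 : 0 < T.im) (h2 : 0 ≤ T.re) :
    0 < (Jf (T + 1)).im ∧ 0 < (Jf (T + 1)).re := by
  have h3 : 0 < T.im * T.im := mul_pos h1 h1
  have h4 : 1 < Complex.normSq (T + 1) := by
    rw [normSq_add_one, Complex.normSq_apply]
    nlinarith [mul_self_nonneg T.re]
  constructor
  · rw [Jf_im]
    have h5 : 0 < 1 - 1 / Complex.normSq (T + 1) := by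
      rw [sub_pos, div_lt_one (by linarith)]
      exact h4
    have h6 : (T + 1).im = T.im := by simp
    rw [h6]
    positivity
  · rw [Jf_re]
    have h6 : (T + 1).re = T.re + 1 := by simp
    rw [h6]
    positivity

/-- `T + 1` for `T` in the right half of the unit disc -/
theorem Jf_add_one_inner {T : ℂ} (h1 : Complex.normSq T ≤ 1) (h2 : 0 < T.re) :
    3 / 2 < (Jf (T + 1)).re := by
  rw [Jf_re]
  have h3 := normSq_add_one T
  have h6 : (T + 1).re = T.re + 1 := by simp
  rw [h6]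
  have h7 : 0 < Complex.normSq (T + 1) := by
    rw [h3]
    have := Complex.normSq_nonneg T
    linarith
  have h8 : Complex.normSq (T + 1) ≤ 2 * (T.re + 1) := by linarith
  have h9 : 1 / 2 ≤ (T.re + 1) * (1 / Complex.normSq (T + 1)) := by
    rw [mul_one_div, le_div_iff₀ h7]
    linarith
  nlinarith

/-- `T + 1` for `T` outside the unit disc with `Re J(T) ≤ 1` -/
theorem Jf_add_one_outer {T : ℂ} (h1 : 1 < Complex.normSq T) (h2 : 0 < T.re)
    (h3 : (Jf T).re ≤ 1) : (Jf T).re + 1 ≤ (Jf (T + 1)).re := by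
  have h0 : T ≠ 0 := by
    rintro rfl
    simp at h2
  have h4 : T + 1 ≠ 0 := by
    intro h
    have := congrArg Complex.re h
    simp at this
    linarith
  rw [Jf_add_one h0 h4]
  have h5 : (T * (T + 1)).re ≤ 0 := by
    by_contra h
    push Not at h
    have h6 : (T * (T + 1)).re = T.re ^ 2 - T.im ^ 2 + T.re := by
      simp [Complex.mul_re]
      ring
    rw [h6] at h
    rw [Jf_re] at h3
    have hn : Complex.normSq T = T.re ^ 2 + T.im ^ 2 := by
      rw [Complex.normSq_apply]; ring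
    have h7 : Complex.normSq T < 2 * T.re ^ 2 + T.re := by rw [hn]; linarith
    have h8 : 1 / 2 < T.re := by nlinarith
    have h9 : 1 / (2 * T.re + 1) < T.re * (1 / Complex.normSq T) := by
      rw [mul_one_div, div_lt_div_iff₀ (by linarith) (by linarith)]
      nlinarith
    have h10 : 1 < T.re + 1 / (2 * T.re + 1) := by
      rw [← sub_pos]
      have : T.re + 1 / (2 * T.re + 1) - 1 = (T.re * (2 * T.re - 1)) / (2 * T.re + 1) := by
        field_simp
        ring
      rw [this]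
      have : 0 < 2 * T.re - 1 := by linarith
      positivity
    nlinarith
  have h6 : (T * (T + 1))⁻¹.re ≤ 0 := by
    rw [Complex.inv_re]
    exact div_nonpos_of_nonpos_of_nonneg h5 (Complex.normSq_nonneg _)
  simp only [Complex.sub_re, Complex.add_re, Complex.one_re]
  linarith

theorem Jf_norm_ge {S : ℂ} (hS : 1 ≤ ‖S‖) : ‖S‖ - 1 ≤ ‖Jf S‖ := by
  unfold Jf
  have h1 : ‖S‖ ≤ ‖S + S⁻¹‖ + ‖S⁻¹‖ := by
    have := norm_sub_le (S + S⁻¹) (S⁻¹)
    simpa using this
  have h2 : ‖S⁻¹‖ ≤ 1 := by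
    rw [norm_inv]
    exact inv_le_one_of_one_le₀ hS
  linarith

/-! ### the domain of the continuation -/

/-- the domain of the continuation -/
def Om : Set ℂ := {J | 2 < J.re ∨ (0 < J.re ∧ 0 < J.im)}

theorem Om_open : IsOpen Om := by
  have h1 : IsOpen {J : ℂ | 0 < J.re} := isOpen_lt continuous_const Complex.continuous_re
  have h2 : IsOpen {J : ℂ | 0 < J.im} := isOpen_lt continuous_const Complex.continuous_im
  have h3 : IsOpen {J : ℂ | 2 < J.re} := isOpen_lt continuous_const Complex.continuous_re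
  exact h3.union (h1.inter h2)

theorem Om_out {J : ℂ} (hJ : J ∈ Om) : J ∈ Out := by
  rcases hJ with h | ⟨h1, h2⟩
  · exact ⟨by linarith, Or.inr h⟩
  · exact ⟨h1, Or.inl h2.ne'⟩

/-- the map `M` -/
def MC (d T : ℂ) : ℂ := 3 * d - 1 + Jf (T + 1)

theorem MC_mem {d J : ℂ} (hd : 1 / 2 < (3 * d - 1).re) (hi : 0 ≤ d.im) (hJ : J ∈ Om) :
    MC d (To J) ∈ Om ∧ J.re + 3 / 4 < (MC d (To J)).re := by
  have hout := Om_out hJ
  obtain ⟨h0, h1, h2⟩ := To_root hout
  have h3 := To_re hout
  have h4 := Jf_add_one_re (normSq_gt h2).le h3.le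
  rw [h1] at h4
  have h5 : (MC d (To J)).re = (3 * d - 1).re + (Jf (To J + 1)).re := by
    simp [MC]
  have h6 : J.re + 3 / 4 < (MC d (To J)).re := by rw [h5]; linarith
  refine ⟨?_, h6⟩
  rcases hJ with h | ⟨h7, h8⟩
  · left; linarith
  · right
    refine ⟨by linarith, ?_⟩
    obtain ⟨h9, h10⟩ := To_im hout
    have h11 : 0 < (To J).im := by
      rw [h9] at h8
      exact (mul_pos_iff_of_pos_right h10).1 h8
    have h12 := (Jf_add_one_im h11 h3.le).1
    have h13 : (MC d (To J)).im = 3 * d.im + (Jf (To J + 1)).im := by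
      simp [MC]
    rw [h13]
    linarith

theorem EC_diff {d : ℂ} {L : ℂ → ℂ} {T : ℂ} (hre : 0 ≤ T.re) (h1 : T ≠ 1)
    (hL : DifferentiableAt ℂ L (MC d T)) : DifferentiableAt ℂ (EC d L) T := by
  have h2 : T + 2 ≠ 0 := by
    intro h
    have := congrArg Complex.re h
    simp at this
    linarith
  have h3 : T - 1 ≠ 0 := sub_ne_zero.2 h1
  have h4 : T + 1 ≠ 0 := by
    intro h
    have := congrArg Complex.re h
    simp at this
    linarith
  have h5 : DifferentiableAt ℂ (fun T : ℂ => T + 1) T := differentiableAt_id.add_const 1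
  have h6 : DifferentiableAt ℂ (fun T : ℂ => Jf (T + 1)) T :=
    DifferentiableAt.comp (g := Jf) T (Jf_diff h4).differentiableAt h5
  have h7 : DifferentiableAt ℂ (fun T : ℂ => Jd (T + 1)) T :=
    DifferentiableAt.comp (g := Jd) T (Jd_diff h4) h5
  have h8 : DifferentiableAt ℂ (fun T : ℂ => L (3 * d - 1 + Jf (T + 1))) T :=
    DifferentiableAt.comp (g := L) T hL (h6.const_add _)
  have h9 : DifferentiableAt ℂ (fun T : ℂ => (T + 2)⁻¹) T := (differentiableAt_id.add_const 2).inv h2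
  have h10 : DifferentiableAt ℂ (fun T : ℂ => (T - 1)⁻¹) T :=
    (differentiableAt_id.sub_const 1).inv h3
  exact ((h9.sub h10).const_mul d).add (h8.mul h7)

/-- continuation to `Om ∩ {Re J > x}` -/
def GoodC (d : ℂ) (Λ : ℂ → ℂ) (x : ℝ) : Prop :=
  ∃ (L : ℂ → ℂ) (R' : ℝ), (∀ J ∈ Om, x < J.re → DifferentiableAt ℂ L J) ∧
    (∀ J ∈ Om, x < J.re → R' < ‖J‖ → L J = Λ J) ∧
    (∀ J ∈ Om, x < J.re → L J * Jd (To J) = EC d L (To J))

theorem GoodC_step {d : ℂ} {Λ : ℂ → ℂ} {R : ℝ} (h : CuspSol d Λ R)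
    (hd : 1 / 2 < (3 * d - 1).re) (hi : 0 ≤ d.im) {x : ℝ} (hx : GoodC d Λ x) :
    GoodC d Λ (x - 1 / 2) := by
  obtain ⟨L, R', hL1, hL2, hL3⟩ := hx
  have hJd : ∀ J ∈ Om, Jd (To J) ≠ 0 ∧ To J ≠ 1 := by
    intro J hJ
    obtain ⟨h0, h1, h2⟩ := To_root (Om_out hJ)
    have h3 : To J ≠ 1 := by
      intro h; rw [h] at h2; simp at h2
    have h4 : To J ≠ -1 := by
      intro h; rw [h] at h2; simp at h2
    exact ⟨Jd_ne h3 h4, h3⟩
  set L' : ℂ → ℂ := fun J => EC d L (To J) / Jd (To J) with hL'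
  have hag : ∀ J ∈ Om, x < J.re → L' J = L J := by
    intro J hJ hxJ
    simp only [hL']
    rw [← hL3 J hJ hxJ, mul_div_cancel_right₀ _ (hJd J hJ).1]
  refine ⟨L', max R (R' + 3 + ‖3 * d - 1‖) + 1, ?_, ?_, ?_⟩
  · intro J hJ hxJ
    obtain ⟨hM1, hM2⟩ := MC_mem hd hi hJ
    have hout := Om_out hJ
    have h1 : DifferentiableAt ℂ L (MC d (To J)) := hL1 _ hM1 (by linarith)
    have h2 := EC_diff (To_re hout).le (hJd J hJ).2 h1
    have h3 : DifferentiableAt ℂ (fun J => EC d L (To J)) J :=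
      DifferentiableAt.comp (g := EC d L) J h2 (To_diff hout)
    have h4 : DifferentiableAt ℂ (fun J => Jd (To J)) J :=
      DifferentiableAt.comp (g := Jd) J (Jd_diff (To_root hout).1) (To_diff hout)
    exact h3.div h4 (hJd J hJ).1
  · intro J hJ hxJ hR
    obtain ⟨hM1, hM2⟩ := MC_mem hd hi hJ
    have hout := Om_out hJ
    obtain ⟨h0, h1, h2⟩ := To_root hout
    have h3 := To_norm_ge hout
    have h4 : R < ‖To J‖ := by
      have := le_max_left R (R' + 3 + ‖3 * d - 1‖)
      linarith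
    have h5 : R' < ‖MC d (To J)‖ := by
      have h6 := le_max_right R (R' + 3 + ‖3 * d - 1‖)
      have h7 : ‖To J‖ - 1 ≤ ‖To J + 1‖ := by
        have := norm_sub_le (To J + 1) 1
        simp at this
        linarith
      have h7' : 1 ≤ ‖To J + 1‖ := by
        have := To_re hout
        have h8 : (To J + 1).re ≤ ‖To J + 1‖ := Complex.re_le_norm _
        simp at h8
        linarith
      have h8 := Jf_norm_ge h7'
      have h9 : ‖Jf (To J + 1)‖ ≤ ‖MC d (To J)‖ + ‖3 * d - 1‖ := by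
        have := norm_sub_le (MC d (To J)) (3 * d - 1)
        simpa [MC] using this
      linarith
    have h6 : L (MC d (To J)) = Λ (MC d (To J)) := hL2 _ hM1 (by linarith) h5
    have h7 := h.ec (To J) h4
    have h8 : EC d L (To J) = Λ J * Jd (To J) := by
      unfold EC
      unfold MC at h6
      rw [h6, ← h7, h1]
    simp only [hL']
    rw [h8, mul_div_cancel_right₀ _ (hJd J hJ).1]
  · intro J hJ hxJ
    obtain ⟨hM1, hM2⟩ := MC_mem hd hi hJ
    have h1 : L' (MC d (To J)) = L (MC d (To J)) := hag _ hM1 (by linarith)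
    have h2 : EC d L' (To J) = EC d L (To J) := by
      unfold EC
      unfold MC at h1
      rw [h1]
    rw [h2]
    simp only [hL']
    exact div_mul_cancel₀ _ (hJd J hJ).1

theorem GoodC_zero {d : ℂ} {Λ : ℂ → ℂ} {R : ℝ} (h : CuspSol d Λ R)
    (hd : 1 / 2 < (3 * d - 1).re) (hi : 0 ≤ d.im) : GoodC d Λ 0 := by
  have hb : GoodC d Λ (|R| + 1) := by
    refine ⟨Λ, R, ?_, fun _ _ _ _ => rfl, ?_⟩
    · intro J _ hJ
      refine h.ana J ?_
      have := Complex.re_le_norm J
      have := le_abs_self R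
      linarith
    · intro J hJ hxJ
      have h1 := Complex.re_le_norm J
      have h2 := le_abs_self R
      have h3 := To_norm_ge (Om_out hJ)
      have h4 := h.ec (To J) (by linarith)
      rw [(To_root (Om_out hJ)).2.1] at h4
      exact h4
  have hn : ∀ n : ℕ, GoodC d Λ (|R| + 1 - n / 2) := by
    intro n
    induction n with
    | zero => simpa using hb
    | succ n ih =>
      have := GoodC_step h hd hi ih
      convert this using 1
      push_cast
      ring
  obtain ⟨n, hn1⟩ := exists_nat_gt (2 * (|R| + 1))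
  obtain ⟨L, R', h1, h2, h3⟩ := hn n
  have hlt : |R| + 1 - (n : ℝ) / 2 < 0 := by linarith
  refine ⟨L, R', fun J hJ h0 => h1 J hJ (by linarith), fun J hJ h0 => h2 J hJ (by linarith),
    fun J hJ h0 => h3 J hJ (by linarith)⟩

/-! ### the identity theorem on a strip -/

theorem strip_id {a b N : ℝ} {f g : ℂ → ℂ}
    (hf : ∀ J : ℂ, a < J.re → J.re < b → DifferentiableAt ℂ f J)
    (hg : ∀ J : ℂ, a < J.re → J.re < b → DifferentiableAt ℂ g J)
    (h : ∀ J : ℂ, a < J.re → J.re < b → J.im < N → f J = g J) :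
    ∀ J : ℂ, a < J.re → J.re < b → f J = g J := by
  intro J h1 h2
  set S : Set ℂ := {J : ℂ | a < J.re ∧ J.re < b} with hS
  have hSo : IsOpen S := (isOpen_lt continuous_const Complex.continuous_re).inter
    (isOpen_lt Complex.continuous_re continuous_const)
  have hSc : Convex ℝ S := (convex_halfSpace_re_gt a).inter (convex_halfSpace_re_lt b)
  have hfa : AnalyticOnNhd ℂ f S :=
    DifferentiableOn.analyticOnNhd (fun z hz => (hf z hz.1 hz.2).differentiableWithinAt) hSo
  have hga : AnalyticOnNhd ℂ g S :=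
    DifferentiableOn.analyticOnNhd (fun z hz => (hg z hz.1 hz.2).differentiableWithinAt) hSo
  set z0 : ℂ := ⟨J.re, N - 1⟩ with hz0
  have hz0S : z0 ∈ S := ⟨h1, h2⟩
  have hev : f =ᶠ[𝓝 z0] g := by
    have ho : IsOpen {J : ℂ | J.im < N} := isOpen_lt Complex.continuous_im continuous_const
    have hm : z0 ∈ {J : ℂ | J.im < N} := by simp [hz0]
    filter_upwards [hSo.mem_nhds hz0S, ho.mem_nhds hm] with w hw1 hw2
    exact h w hw1.1 hw1.2 hw2
  exact hfa.eqOn_of_preconnected_of_eventuallyEq hga hSc.isPreconnected hz0S hev ⟨h1, h2⟩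

/-! ### the two branches over the strip -/

/-- a vertical line -/
def pth (x y : ℝ) : ℂ := ⟨x, y⟩

theorem pth_norm (x : ℝ) : Tendsto (fun y : ℝ => ‖pth x y‖) atTop atTop := by
  refine tendsto_atTop_mono (fun y => ?_) tendsto_id
  exact (le_abs_self y).trans (Complex.abs_im_le_norm (pth x y))

theorem pth_sub_norm (c : ℂ) (x : ℝ) : Tendsto (fun y : ℝ => ‖c - pth x y‖) atTop atTop := by
  have h := tendsto_atTop_add_const_right atTop (-‖c‖) (pth_norm x)
  refine tendsto_atTop_mono (fun y => ?_) h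
  have := norm_sub_norm_le (pth x y) c
  rw [norm_sub_rev] at this
  linarith

theorem inv_lim {f : ℝ → ℂ} (h : Tendsto (fun y => ‖f y‖) atTop atTop) :
    Tendsto (fun y => (f y)⁻¹) atTop (𝓝 0) := by
  rw [tendsto_zero_iff_norm_tendsto_zero]
  simp only [norm_inv]
  exact tendsto_inv_atTop_zero.comp h

/-- `EC T / Jd T = Psi T / J²` for `T + 1 / T = J` -/
def Psi (d : ℂ) (L : ℂ → ℂ) (T : ℂ) : ℂ := EC d L T * (T ^ 2 + 1) ^ 2 / (T ^ 2 - 1)

theorem Psi_eq {d : ℂ} {L : ℂ → ℂ} {T : ℂ} (h0 : T ≠ 0) (h1 : Jf T ≠ 0) (h2 : T ^ 2 - 1 ≠ 0) :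
    EC d L T / Jd T = Psi d L T / (Jf T) ^ 2 := by
  have h3 : Jf T = (T ^ 2 + 1) / T := by unfold Jf; field_simp
  have h4 : Jd T = (T ^ 2 - 1) / T ^ 2 := by unfold Jd; field_simp
  have h5 : T ^ 2 + 1 ≠ 0 := by
    intro h
    rw [h3, h] at h1
    simp at h1
  rw [h3, h4]
  unfold Psi
  field_simp

theorem cusp_contra {d : ℂ} {Λ : ℂ → ℂ} {R : ℝ} (h : CuspSol d Λ R)
    (hd : 1 / 2 < (3 * d - 1).re) (hi : 0 ≤ d.im) : False := by
  obtain ⟨L, R', hL1, hL2, hL3⟩ := GoodC_zero h hd hi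
  have hOmre : ∀ J ∈ Om, 0 < J.re := by
    rintro J (h | h)
    · linarith
    · exact h.1
  replace hL1 := fun J hJ => hL1 J hJ (hOmre J hJ)
  replace hL2 := fun J hJ => hL2 J hJ (hOmre J hJ)
  replace hL3 := fun J hJ => hL3 J hJ (hOmre J hJ)
  set c : ℂ := 3 * d - 1 with hc
  have hci : 0 ≤ c.im := by
    have : c.im = 3 * d.im := by simp [hc]
    rw [this]; linarith
  set Fm : ℂ → ℂ := fun J => EC d L (Tm J) / Jd (Tm J) with hFm
  set Fp : ℂ → ℂ := fun J => EC d L (Tp J) / Jd (Tp J) with hFp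
  have hne : ∀ J ∈ Strip, Tm J ≠ 1 ∧ Tm J ≠ -1 ∧ Tp J ≠ 1 ∧ Tp J ≠ -1 := by
    intro J hJ
    obtain ⟨h1, h2⟩ := Tp_im hJ
    refine ⟨?_, ?_, ?_, ?_⟩ <;> intro h3 <;> have h4 := congrArg Complex.im h3 <;>
      simp at h4 <;> linarith
  have hFpd : ∀ J ∈ Strip, DifferentiableAt ℂ Fp J := by
    intro J hJ
    obtain ⟨_, _, h1, h2⟩ := hne J hJ
    have hT := Jf_add_one_im (Tp_im hJ).1 (Tp_re hJ).le
    have hM : MC d (Tp J) ∈ Om := by
      right
      have h3 : (MC d (Tp J)).re = c.re + (Jf (Tp J + 1)).re := by simp [MC, hc]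
      have h4 : (MC d (Tp J)).im = c.im + (Jf (Tp J + 1)).im := by simp [MC, hc]
      rw [h3, h4]
      exact ⟨by linarith [hT.2], by linarith [hT.1]⟩
    have h3 := EC_diff (Tp_re hJ).le h1 (hL1 _ hM)
    have h4 : DifferentiableAt ℂ (fun J => EC d L (Tp J)) J :=
      DifferentiableAt.comp (g := EC d L) J h3 (Strip_diff hJ).1
    have h5 : DifferentiableAt ℂ (fun J => Jd (Tp J)) J :=
      DifferentiableAt.comp (g := Jd) J (Jd_diff (Tp_ne hJ)) (Strip_diff hJ).1
    exact h4.div h5 (Jd_ne h1 h2)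
  have hFpe : ∀ J ∈ Strip, 0 < J.im → Fp J = L J := by
    intro J hJ hJi
    obtain ⟨_, _, h1, h2⟩ := hne J hJ
    have hO : J ∈ Om := Or.inr ⟨hJ.1, hJi⟩
    have h3 : To J = Tp J := by
      have := To_unique (Tp_out hJ hJi) (by rw [Jf_Tp hJ]; exact Om_out hO)
      rw [Jf_Tp hJ] at this
      exact this
    have h4 := hL3 J hO
    rw [h3] at h4
    simp only [hFp]
    rw [← h4, mul_div_cancel_right₀ _ (Jd_ne h1 h2)]
  have hMm : ∀ J ∈ Strip, J.re < 1 → 1 - c.re < J.re → 2 < (MC d (Tm J)).re := by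
    intro J hJ hJ1 hJ2
    have h3 : (MC d (Tm J)).re = c.re + (Jf (Tm J + 1)).re := by simp [MC, hc]
    rw [h3]
    rcases le_or_gt (Complex.normSq (Tm J)) 1 with h4 | h4
    · have := Jf_add_one_inner h4 (Tm_re hJ)
      linarith
    · have h5 := Jf_add_one_outer h4 (Tm_re hJ) (by rw [Jf_Tm hJ]; exact hJ1.le)
      rw [Jf_Tm hJ] at h5
      linarith
  have hFmd : ∀ J ∈ Strip, J.re < 1 → 1 - c.re < J.re → DifferentiableAt ℂ Fm J := by
    intro J hJ hJ1 hJ2
    obtain ⟨h1, h2, _, _⟩ := hne J hJ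
    have h3 := EC_diff (Tm_re hJ).le h1 (hL1 _ (Or.inl (hMm J hJ hJ1 hJ2)))
    have h4 : DifferentiableAt ℂ (fun J => EC d L (Tm J)) J :=
      DifferentiableAt.comp (g := EC d L) J h3 (Strip_diff hJ).2
    have h5 : DifferentiableAt ℂ (fun J => Jd (Tm J)) J :=
      DifferentiableAt.comp (g := Jd) J (Jd_diff (Tm_ne hJ)) (Strip_diff hJ).2
    exact h4.div h5 (Jd_ne h1 h2)
  have hFme : ∀ J ∈ Strip, J.re < 1 → 1 - c.re < J.re → J.im < 0 →
      |R| + |R'| + 3 + ‖c‖ < ‖J‖ → Fm J = Λ J := by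
    intro J hJ hJ1 hJ2 hJ3 hJ4
    obtain ⟨h1, h2, _, _⟩ := hne J hJ
    have h3 := Tm_out hJ hJ3
    have h4 : ‖J‖ - 1 ≤ ‖Tm J‖ := by
      have := norm_ge_of_root h3
      rwa [Jf_Tm hJ] at this
    have h5 : R < ‖Tm J‖ := by
      have := le_abs_self R
      have := abs_nonneg R'
      have := norm_nonneg c
      linarith
    have h6 : R' < ‖MC d (Tm J)‖ := by
      have h7 : ‖Tm J‖ - 1 ≤ ‖Tm J + 1‖ := by
        have := norm_sub_le (Tm J + 1) 1
        simp at this
        linarith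
      have h7' : 1 ≤ ‖Tm J + 1‖ := by
        have := Tm_re hJ
        have h8 : (Tm J + 1).re ≤ ‖Tm J + 1‖ := Complex.re_le_norm _
        simp at h8
        linarith
      have h8 := Jf_norm_ge h7'
      have h9 : ‖Jf (Tm J + 1)‖ ≤ ‖MC d (Tm J)‖ + ‖c‖ := by
        have := norm_sub_le (MC d (Tm J)) c
        simpa [MC, hc] using this
      have := le_abs_self R'
      have := abs_nonneg R
      linarith
    have h7 := hL2 _ (Or.inl (hMm J hJ hJ1 hJ2)) h6
    have h8 := h.ec (Tm J) h5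
    simp only [hFm]
    unfold EC
    unfold MC at h7
    rw [h7, ← h8, Jf_Tm hJ, mul_div_cancel_right₀ _ (Jd_ne h1 h2)]
  -- the value at `0`
  have hMC0 : MC d 0 = c + 2 := by
    simp only [MC, hc, Jf]
    norm_num
  have hE0 : EC d L 0 = 3 / 2 * d := by
    unfold EC Jd
    norm_num
    ring
  have hEc : ContinuousAt (EC d L) 0 := by
    refine (EC_diff (by simp) (by norm_num) (hL1 _ ?_)).continuousAt
    rw [hMC0]
    left
    simp only [Complex.add_re]
    have : (2 : ℂ).re = 2 := by norm_num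
    rw [this]
    linarith
  have hPc : ContinuousAt (Psi d L) 0 := by
    unfold Psi
    refine (hEc.mul (by fun_prop)).div (by fun_prop) (by norm_num)
  have hP0 : Psi d L 0 = -(3 / 2 * d) := by
    unfold Psi
    rw [hE0]
    ring
  have hd0 : d ≠ 0 := by
    rintro rfl
    rw [hc] at hd
    simp at hd
    norm_num at hd
  have hOO : ∀ J ∈ Strip, J ≠ 0 := by
    rintro J hJ rfl
    exact lt_irrefl _ hJ.1
  have hFmP : ∀ J ∈ Strip, Fm J = Psi d L (Tm J) / J ^ 2 := by
    intro J hJ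
    obtain ⟨h1, h2, _, _⟩ := hne J hJ
    have h3 : Tm J ^ 2 - 1 ≠ 0 := by
      intro h
      have : (Tm J - 1) * (Tm J + 1) = 0 := by linear_combination h
      rcases mul_eq_zero.1 this with h | h
      · exact h1 (sub_eq_zero.1 h)
      · exact h2 (eq_neg_of_add_eq_zero_left h)
    have := Psi_eq (d := d) (L := L) (Tm_ne hJ) (by rw [Jf_Tm hJ]; exact hOO J hJ) h3
    rw [Jf_Tm hJ] at this
    exact this
  have hFpP : ∀ J ∈ Strip, Fp J = Psi d L (Tp J) / J ^ 2 := by
    intro J hJ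
    obtain ⟨_, _, h1, h2⟩ := hne J hJ
    have h3 : Tp J ^ 2 - 1 ≠ 0 := by
      intro h
      have : (Tp J - 1) * (Tp J + 1) = 0 := by linear_combination h
      rcases mul_eq_zero.1 this with h | h
      · exact h1 (sub_eq_zero.1 h)
      · exact h2 (eq_neg_of_add_eq_zero_left h)
    have := Psi_eq (d := d) (L := L) (Tp_ne hJ) (by rw [Jf_Tp hJ]; exact hOO J hJ) h3
    rw [Jf_Tp hJ] at this
    exact this
  have hTm0 : ∀ x : ℝ, 0 < x → x < 2 → Tendsto (fun y : ℝ => Tm (pth x y)) atTop (𝓝 0) := by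
    intro x hx0 hx2
    rw [tendsto_zero_iff_norm_tendsto_zero]
    have h1 : Tendsto (fun y : ℝ => (‖pth x y‖ - 1)⁻¹) atTop (𝓝 0) :=
      tendsto_inv_atTop_zero.comp (tendsto_atTop_add_const_right atTop (-1) (pth_norm x))
    refine squeeze_zero' (Eventually.of_forall fun _ => norm_nonneg _) ?_ h1
    filter_upwards [eventually_gt_atTop (1 : ℝ)] with y hy
    have hJ : pth x y ∈ Strip := ⟨hx0, hx2⟩
    have h2 : 1 < ‖Tp (pth x y)‖ := Tp_out hJ (by show (0:ℝ) < y; linarith)
    have h3 := norm_ge_of_root h2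
    rw [Jf_Tp hJ] at h3
    have h4 : 0 < ‖pth x y‖ - 1 := by
      have : y ≤ ‖pth x y‖ := (le_abs_self y).trans (Complex.abs_im_le_norm (pth x y))
      linarith
    rw [Tm_eq hJ, norm_inv]
    exact inv_anti₀ h4 h3
  have hTp0 : ∀ x : ℝ, 0 < c.re - x → c.re - x < 2 →
      Tendsto (fun y : ℝ => Tp (c - pth x y)) atTop (𝓝 0) := by
    intro x hx0 hx2
    rw [tendsto_zero_iff_norm_tendsto_zero]
    have h1 : Tendsto (fun y : ℝ => (‖c - pth x y‖ - 1)⁻¹) atTop (𝓝 0) :=
      tendsto_inv_atTop_zero.comp (tendsto_atTop_add_const_right atTop (-1) (pth_sub_norm c x))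
    refine squeeze_zero' (Eventually.of_forall fun _ => norm_nonneg _) ?_ h1
    filter_upwards [eventually_gt_atTop (1 + c.im : ℝ),
      (pth_sub_norm c x).eventually_gt_atTop 1] with y hy hy1
    have hJ : c - pth x y ∈ Strip := by
      constructor
      · simpa [pth] using hx0
      · simpa [pth] using hx2
    have h2 : 1 < ‖Tm (c - pth x y)‖ := Tm_out hJ (by
      show (c - pth x y).im < 0
      simp only [pth, Complex.sub_im]
      linarith)
    have h3 := norm_ge_of_root h2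
    rw [Jf_Tm hJ] at h3
    have h4 : 0 < ‖c - pth x y‖ - 1 := by linarith
    rw [Tp_eq hJ, norm_inv]
    exact inv_anti₀ h4 h3
  have hrat : ∀ x : ℝ, Tendsto (fun y : ℝ => pth x y / (c - pth x y)) atTop (𝓝 (-1)) := by
    intro x
    have h1 : Tendsto (fun y : ℝ => -1 + c * (c - pth x y)⁻¹) atTop (𝓝 (-1 + c * 0)) :=
      ((inv_lim (pth_sub_norm c x)).const_mul c).const_add (-1)
    rw [mul_zero, add_zero] at h1
    refine h1.congr' ?_
    filter_upwards [(pth_sub_norm c x).eventually_gt_atTop 0] with y hy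
    have : c - pth x y ≠ 0 := norm_pos_iff.1 hy
    field_simp
    ring
  rcases le_or_gt c.re 2 with hA | hB
  · -- case A
    obtain ⟨x0, hx1, hx2⟩ : ∃ x0, max 0 (1 - c.re) < x0 ∧ x0 < min 1 c.re := by
      refine exists_between (lt_min (max_lt ?_ ?_) (max_lt ?_ ?_)) <;> linarith
    rw [max_lt_iff] at hx1
    rw [lt_min_iff] at hx2
    have key : ∀ J : ℂ, max 0 (1 - c.re) < J.re → J.re < min 1 c.re →
        Fm J = -Fp (c - J) := by
      refine strip_id (N := -(|R| + |R'| + 3 + ‖c‖ + ‖c‖)) ?_ ?_ ?_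
      · intro J h1 h2
        rw [max_lt_iff] at h1
        rw [lt_min_iff] at h2
        exact hFmd J ⟨h1.1, by linarith⟩ h2.1 h1.2
      · intro J h1 h2
        rw [max_lt_iff] at h1
        rw [lt_min_iff] at h2
        have h3 : c - J ∈ Strip := by
          constructor
          · rw [Complex.sub_re]; linarith
          · rw [Complex.sub_re]; linarith
        have h4 : DifferentiableAt ℂ (fun J => Fp (c - J)) J :=
          DifferentiableAt.comp (g := Fp) J (hFpd _ h3) (differentiableAt_id.const_sub c)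
        exact h4.neg
      · intro J h1 h2 hN
        rw [max_lt_iff] at h1
        rw [lt_min_iff] at h2
        have h3 : c - J ∈ Strip := by
          constructor
          · rw [Complex.sub_re]; linarith
          · rw [Complex.sub_re]; linarith
        have hcn := norm_nonneg c
        have hRn := abs_nonneg R
        have hRn' := abs_nonneg R'
        have hRl := le_abs_self R
        have hRl' := le_abs_self R'
        have h5 : |R| + |R'| + 3 + ‖c‖ + ‖c‖ < ‖J‖ := by
          have := Complex.abs_im_le_norm J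
          have := neg_le_abs J.im
          linarith
        have h6 : (c - J).im > 0 := by
          rw [Complex.sub_im]; linarith
        have h7 : |R| + |R'| + 3 < ‖c - J‖ := by
          have h8 := norm_sub_norm_le J c
          rw [norm_sub_rev J c] at h8
          linarith
        rw [hFme J ⟨h1.1, by linarith⟩ h2.1 h1.2 (by linarith) (by linarith),
          hFpe (c - J) h3 h6, hL2 (c - J) (Or.inr ⟨h3.1, h6⟩) (by linarith),
          h.odd J (by linarith) (by linarith), neg_neg]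
    have hev : ∀ᶠ y : ℝ in atTop, Psi d L (Tm (pth x0 y)) =
        -(Psi d L (Tp (c - pth x0 y)) * (pth x0 y / (c - pth x0 y)) ^ 2) := by
      filter_upwards [(pth_sub_norm c x0).eventually_gt_atTop 0] with y hy
      have hJ : pth x0 y ∈ Strip := ⟨hx1.1, by show x0 < 2; linarith⟩
      have hJ' : c - pth x0 y ∈ Strip := by
        constructor
        · rw [Complex.sub_re]; show 0 < c.re - x0; linarith
        · rw [Complex.sub_re]; show c.re - x0 < 2; linarith
      have h1 := key (pth x0 y) (max_lt hx1.1 hx1.2) (lt_min hx2.1 hx2.2)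
      rw [hFmP _ hJ, hFpP _ hJ'] at h1
      have h2 := hOO _ hJ
      have h3 := hOO _ hJ'
      have h4 : Psi d L (Tm (pth x0 y)) = Psi d L (Tm (pth x0 y)) / pth x0 y ^ 2 * pth x0 y ^ 2 := by
        field_simp
      rw [h4, h1]
      field_simp
    have hl1 : Tendsto (fun y : ℝ => Psi d L (Tm (pth x0 y))) atTop (𝓝 (Psi d L 0)) :=
      hPc.tendsto.comp (hTm0 x0 hx1.1 (by linarith))
    have hl2 : Tendsto (fun y : ℝ => -(Psi d L (Tp (c - pth x0 y)) *
        (pth x0 y / (c - pth x0 y)) ^ 2)) atTop (𝓝 (-(Psi d L 0 * (-1) ^ 2))) :=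
      ((hPc.tendsto.comp (hTp0 x0 (by linarith) (by linarith))).mul ((hrat x0).pow 2)).neg
    have hl := tendsto_nhds_unique (hl1.congr' hev) hl2
    rw [hP0] at hl
    apply hd0
    linear_combination -(1/3) * hl
  · -- case B
    obtain ⟨x0, hx1, hx2⟩ : ∃ x0, 0 < x0 ∧ x0 < min 1 (c.re - 2) := by
      refine exists_between (lt_min ?_ ?_) <;> linarith
    rw [lt_min_iff] at hx2
    have key : ∀ J : ℂ, 0 < J.re → J.re < min 1 (c.re - 2) → Fm J = -L (c - J) := by
      refine strip_id (N := -(|R| + |R'| + 3 + ‖c‖ + ‖c‖)) ?_ ?_ ?_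
      · intro J h1 h2
        rw [lt_min_iff] at h2
        exact hFmd J ⟨h1, by linarith⟩ h2.1 (by linarith)
      · intro J h1 h2
        rw [lt_min_iff] at h2
        have h3 : c - J ∈ Om := by
          left; rw [Complex.sub_re]; linarith
        have h4 : DifferentiableAt ℂ (fun J => L (c - J)) J :=
          DifferentiableAt.comp (g := L) J (hL1 _ h3) (differentiableAt_id.const_sub c)
        exact h4.neg
      · intro J h1 h2 hN
        rw [lt_min_iff] at h2
        have h3 : c - J ∈ Om := by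
          left; rw [Complex.sub_re]; linarith
        have hcn := norm_nonneg c
        have hRn := abs_nonneg R
        have hRn' := abs_nonneg R'
        have hRl := le_abs_self R
        have hRl' := le_abs_self R'
        have h5 : |R| + |R'| + 3 + ‖c‖ + ‖c‖ < ‖J‖ := by
          have := Complex.abs_im_le_norm J
          have := neg_le_abs J.im
          linarith
        have h7 : |R| + |R'| + 3 < ‖c - J‖ := by
          have h8 := norm_sub_norm_le J c
          rw [norm_sub_rev J c] at h8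
          linarith
        rw [hFme J ⟨h1, by linarith⟩ h2.1 (by linarith) (by linarith) (by linarith),
          hL2 (c - J) h3 (by linarith),
          h.odd J (by linarith) (by linarith), neg_neg]
    have hev : ∀ᶠ y : ℝ in atTop, Psi d L (Tm (pth x0 y)) * (pth x0 y)⁻¹ =
        -((pth x0 y / (c - pth x0 y)) * ((c - pth x0 y) * Λ (c - pth x0 y))) := by
      filter_upwards [(pth_sub_norm c x0).eventually_gt_atTop (max 0 R')] with y hy
      rw [max_lt_iff] at hy
      have hJ : pth x0 y ∈ Strip := ⟨hx1, by show x0 < 2; linarith⟩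
      have hJ' : c - pth x0 y ∈ Om := by
        left; rw [Complex.sub_re]; show 2 < c.re - x0; linarith
      have h1 := key (pth x0 y) hx1 (lt_min hx2.1 hx2.2)
      rw [hFmP _ hJ, hL2 _ hJ' hy.2] at h1
      have h2 := hOO _ hJ
      have h3 : c - pth x0 y ≠ 0 := norm_pos_iff.1 hy.1
      have h4 : Psi d L (Tm (pth x0 y)) * (pth x0 y)⁻¹ =
          Psi d L (Tm (pth x0 y)) / pth x0 y ^ 2 * pth x0 y := by
        field_simp
      rw [h4, h1]
      field_simp
    have hl1 : Tendsto (fun y : ℝ => Psi d L (Tm (pth x0 y)) * (pth x0 y)⁻¹) atTop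
        (𝓝 (Psi d L 0 * 0)) :=
      (hPc.tendsto.comp (hTm0 x0 hx1 (by linarith))).mul (inv_lim (pth_norm x0))
    have hlim : Tendsto (fun y : ℝ => (c - pth x0 y) * Λ (c - pth x0 y)) atTop (𝓝 (-1)) := by
      refine h.lim.comp ?_
      rw [← Metric.cobounded_eq_cocompact, ← tendsto_norm_atTop_iff_cobounded]
      exact pth_sub_norm c x0
    have hl2 : Tendsto (fun y : ℝ => -((pth x0 y / (c - pth x0 y)) *
        ((c - pth x0 y) * Λ (c - pth x0 y)))) atTop (𝓝 (-((-1) * (-1)))) :=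
      ((hrat x0).mul hlim).neg
    have hl := tendsto_nhds_unique (hl1.congr' hev) hl2
    norm_num at hl

/-! ### complex conjugation -/

theorem Jf_conj (T : ℂ) : Jf (starRingEnd ℂ T) = starRingEnd ℂ (Jf T) := by
  simp [Jf]

theorem Jd_conj (T : ℂ) : Jd (starRingEnd ℂ T) = starRingEnd ℂ (Jd T) := by
  simp [Jd]

theorem CuspSol_conj {d : ℂ} {Λ : ℂ → ℂ} {R : ℝ} (h : CuspSol d Λ R) :
    CuspSol (starRingEnd ℂ d) (fun J => starRingEnd ℂ (Λ (starRingEnd ℂ J))) R := by
  have e3 : (starRingEnd ℂ) (3 : ℂ) = 3 := map_ofNat (starRingEnd ℂ) 3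
  have e2 : (starRingEnd ℂ) (2 : ℂ) = 2 := map_ofNat (starRingEnd ℂ) 2
  have hcc : ∀ J : ℂ, starRingEnd ℂ (3 * starRingEnd ℂ d - 1 - J) =
      3 * d - 1 - starRingEnd ℂ J := by
    intro J
    simp only [map_sub, map_mul, map_one, e3, Complex.conj_conj]
  refine ⟨?_, ?_, ?_, ?_⟩
  · intro J hJ
    have h1 := h.ana (starRingEnd ℂ J) (by simpa using hJ)
    have h2 := h1.conj_conj
    rw [Complex.conj_conj] at h2
    exact h2
  · have h1 : Tendsto (starRingEnd ℂ) (cocompact ℂ) (cocompact ℂ) := by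
      rw [← Metric.cobounded_eq_cocompact, ← tendsto_norm_atTop_iff_cobounded]
      simpa using tendsto_norm_cobounded_atTop (E := ℂ)
    have h2 := (Complex.continuous_conj.tendsto (-1)).comp (h.lim.comp h1)
    have h3 : starRingEnd ℂ (-1) = -1 := by simp
    rw [h3] at h2
    refine h2.congr (fun J => ?_)
    simp
  · intro J h1 h2
    have h3 := h.odd (starRingEnd ℂ J) (by simpa using h1) (by
      rw [← hcc]
      rw [Complex.norm_conj]
      exact h2)
    show starRingEnd ℂ (Λ (starRingEnd ℂ (3 * starRingEnd ℂ d - 1 - J))) = _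
    rw [hcc, h3, map_neg]
  · intro T hT
    have h1 := h.ec (starRingEnd ℂ T) (by simpa using hT)
    have h2 := congrArg (starRingEnd ℂ) h1
    have h3 : starRingEnd ℂ (3 * starRingEnd ℂ d - 1 + Jf (T + 1)) =
        3 * d - 1 + Jf (starRingEnd ℂ T + 1) := by
      have h4 : starRingEnd ℂ T + 1 = starRingEnd ℂ (T + 1) := by simp
      rw [h4, Jf_conj]
      simp only [map_sub, map_mul, map_one, map_add, e3, Complex.conj_conj]
    have h5 : Jd (starRingEnd ℂ T + 1) = starRingEnd ℂ (Jd (T + 1)) := by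
      rw [← Jd_conj, map_add, map_one]
    rw [Jf_conj, Jd_conj, h5] at h2
    simp only [map_mul, map_add, map_sub, map_inv₀, Complex.conj_conj, map_one, e2] at h2
    rw [← Jf_conj] at h2
    show starRingEnd ℂ (Λ (starRingEnd ℂ (Jf T))) * Jd T = starRingEnd ℂ d * _ +
      starRingEnd ℂ (Λ (starRingEnd ℂ (3 * starRingEnd ℂ d - 1 + Jf (T + 1)))) * Jd (T + 1)
    rw [h3, ← Jf_conj]
    exact h2

/-- **the bound at an ordinary cusp** -/
theorem cusp_bound {d : ℂ} {Λ : ℂ → ℂ} {R : ℝ} (h : CuspSol d Λ R) : d.re ≤ 1 / 2 := by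
  by_contra hlt
  push Not at hlt
  have hre : (3 * d - 1).re = 3 * d.re - 1 := by simp
  rcases le_total 0 d.im with hi | hi
  · exact cusp_contra h (by rw [hre]; linarith) hi
  · refine cusp_contra (CuspSol_conj h) ?_ ?_
    · have : (3 * starRingEnd ℂ d - 1).re = 3 * d.re - 1 := by simp
      rw [this]; linarith
    · simpa using hi

end Pool.Agent.MP_ae5b4e_an_GENL
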