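import Mathlib
import Pool.Agent.Lib.MP_ae5b4e_an_GENL.FlexB

/-!
# MP_ae5b4e_an, general involutions: meromorphic continuation at an ordinary flex, to all of `ℂ`
-/

noncomputable section

namespace Pool.Agent.MP_ae5b4e_an_GENL

open Filter Topology

/-- meromorphic continuation to `{Re J > x}` -/
def GoodF (Λ : ℂ → ℂ) (x : ℝ) : Prop :=
  ∃ (L : ℂ → ℂ) (R' : ℝ), (∀ J : ℂ, x < J.re → MeromorphicAt L J) ∧
    (∀ J : ℂ, x < J.re → R' < ‖J‖ → L J = Λ J)

theorem MF_ev {d : ℂ} {T : ℂ} {x R' : ℝ} (hT : T ≠ 1) (h1 : x < (MF d T).re)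
    (h2 : R' < ‖MF d T‖) : ∀ᶠ S in 𝓝 T, x < (MF d S).re ∧ R' < ‖MF d S‖ := by
  have hc := (MF_analytic (d := d) hT).continuousAt
  have ho : IsOpen {J : ℂ | x < J.re ∧ R' < ‖J‖} :=
    (isOpen_lt continuous_const Complex.continuous_re).inter
      (isOpen_lt continuous_const continuous_norm)
  exact hc.eventually_mem (ho.mem_nhds ⟨h1, h2⟩)

theorem RE_congr {d : ℂ} {L Λ : ℂ → ℂ} {T : ℂ} (h : L (MF d T) = Λ (MF d T)) :
    RE d L T = RE d Λ T := by
  unfold RE
  rw [h]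

theorem tendsto_inv_one : Tendsto (fun T : ℂ => T⁻¹) (𝓝[≠] 1) (𝓝[≠] 1) := by
  rw [tendsto_nhdsWithin_iff]
  constructor
  · have h2 : Tendsto (fun T : ℂ => T⁻¹) (𝓝 1) (𝓝 (1 : ℂ)⁻¹) := tendsto_inv₀ one_ne_zero
    rw [inv_one] at h2
    exact h2.mono_left nhdsWithin_le_nhds
  · filter_upwards [self_mem_nhdsWithin] with T hT h4
    exact hT (inv_eq_one.1 h4)

theorem inv_aux {a b T : ℂ} (hT : T ≠ 0) (h : a + b / T ^ 2 = 0) : b = -(T ^ 2 * a) := by
  have h1 : b / T ^ 2 = -a := by linear_combination h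
  rw [div_eq_iff (pow_ne_zero 2 hT)] at h1
  rw [h1]
  ring

theorem arc_inv {d : ℂ} {Λ : ℂ → ℂ} {R : ℝ} (h : FlexSol d Λ R) {x R' : ℝ} {L : ℂ → ℂ}
    (hL1 : ∀ J : ℂ, x < J.re → MeromorphicAt L J)
    (hL2 : ∀ J : ℂ, x < J.re → R' < ‖J‖ → L J = Λ J) {T0 : ℂ} (hT0 : ‖T0‖ = 1) (hT1 : T0 ≠ 1)
    (hx : x - (3 * d.re - 3 / 2) < (Jf T0).re) :
    ∀ᶠ T in 𝓝[≠] T0, RE d L T + RE d L T⁻¹ / T ^ 2 = 0 := by
  set θ : ℝ := Complex.arg T0 with hθ
  have hTθ : T0 = Complex.exp (θ * Complex.I) := by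
    have := Complex.norm_mul_exp_arg_mul_I T0
    rw [hT0] at this
    simp only [Complex.ofReal_one, one_mul] at this
    exact this.symm
  have hθ0 : θ ≠ 0 := by
    intro h0
    rw [h0] at hTθ
    simp at hTθ
    exact hT1 hTθ
  have hθ1 : |θ| ≤ Real.pi := Complex.abs_arg_le_pi T0
  set γ : ℝ → ℂ := fun s => Complex.exp ((s * θ : ℝ) * Complex.I) with hγ
  have hγc : Continuous γ := by
    simp only [hγ]
    fun_prop
  have hγn : ∀ s, ‖γ s‖ = 1 := fun s => Complex.norm_exp_ofReal_mul_I _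
  have hγ1 : γ 1 = T0 := by
    simp only [hγ, one_mul]
    exact hTθ.symm
  have hγ0 : γ 0 = 1 := by simp [hγ]
  have hγre : ∀ s, (γ s).re = Real.cos (s * θ) := fun s => Complex.exp_ofReal_mul_I_re _
  have hJre : ∀ s, (Jf (γ s)).re = 2 * Real.cos (s * θ) := by
    intro s
    rw [Jf_re, Complex.normSq_eq_norm_sq, hγn, hγre]
    ring
  have habs : ∀ s ∈ Set.Ioc (0 : ℝ) 1, |s * θ| ≤ |θ| := by
    intro s hs
    rw [abs_mul, abs_of_pos hs.1]
    exact mul_le_of_le_one_left (abs_nonneg _) hs.2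
  have hne : ∀ s ∈ Set.Ioc (0 : ℝ) 1, γ s ≠ 1 := by
    intro s hs h1
    have h2 := congrArg Complex.re h1
    rw [hγre] at h2
    have h3 := abs_le.1 ((habs s hs).trans hθ1)
    have hpi := Real.pi_pos
    have h4 := (Real.cos_eq_one_iff_of_lt_of_lt (by linarith) (by linarith)).1 h2
    rcases mul_eq_zero.1 h4 with h5 | h5
    · exact hs.1.ne' h5
    · exact hθ0 h5
  have hcos : ∀ s ∈ Set.Ioc (0 : ℝ) 1, Real.cos θ ≤ Real.cos (s * θ) := by
    intro s hs
    rw [← Real.cos_abs θ, ← Real.cos_abs (s * θ)]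
    exact Real.cos_le_cos_of_nonneg_of_le_pi (abs_nonneg _) hθ1 (habs s hs)
  have hre : ∀ s ∈ Set.Ioc (0 : ℝ) 1, x < (MF d (γ s)).re ∧ x < (MF d (γ s)⁻¹).re := by
    intro s hs
    have h1 := hJre 1
    rw [hγ1, one_mul] at h1
    have h2 := hcos s hs
    have h3 : (γ s)⁻¹ ≠ 1 := by
      intro h4
      exact hne s hs (inv_eq_one.1 h4)
    have h4 := MF_re (d := d) (T := γ s) (hγn s).ge (hne s hs)
    have h5 := MF_re (d := d) (T := (γ s)⁻¹) (by rw [norm_inv, hγn]; simp) h3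
    rw [Jf_inv] at h5
    rw [hJre] at h4 h5
    constructor <;> linarith
  set E : ℂ → ℂ := fun T => RE d L T + RE d L T⁻¹ / T ^ 2 with hE
  have hEm : MeromorphicOn E (γ '' Set.Ioc (0 : ℝ) 1) := by
    rintro T ⟨s, hs, rfl⟩
    have hg0 : γ s ≠ 0 := by
      intro h0
      have := hγn s
      rw [h0] at this
      simp at this
    have h3 : (γ s)⁻¹ ≠ 1 := by
      intro h4
      exact hne s hs (inv_eq_one.1 h4)
    have h1 : MeromorphicAt (RE d L) (γ s) := RE_mero (hne s hs) (hL1 _ (hre s hs).1)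
    have h2 : MeromorphicAt (RE d L) (γ s)⁻¹ := RE_mero h3 (hL1 _ (hre s hs).2)
    have h4 : AnalyticAt ℂ (fun T : ℂ => T⁻¹) (γ s) := analyticAt_id.inv hg0
    have h5 : MeromorphicAt (fun T : ℂ => RE d L T⁻¹) (γ s) := h2.comp_analyticAt h4
    have h6 : MeromorphicAt (fun T : ℂ => T ^ 2) (γ s) := by fun_prop
    exact h1.add (h5.div h6)
  have hconn : IsPreconnected (γ '' Set.Ioc (0 : ℝ) 1) :=
    isPreconnected_Ioc.image _ hγc.continuousOn
  -- a point near `1`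
  have htend : Tendsto γ (𝓝[>] 0) (𝓝[≠] 1) := by
    rw [tendsto_nhdsWithin_iff]
    constructor
    · have := hγc.tendsto 0
      rw [hγ0] at this
      exact this.mono_left nhdsWithin_le_nhds
    · have h1 : ∀ᶠ s : ℝ in 𝓝[>] 0, s ∈ Set.Ioc (0 : ℝ) 1 := Ioc_mem_nhdsGT one_pos
      filter_upwards [h1] with s hs
      exact hne s hs
  have hinv := tendsto_inv_one
  have hev : ∀ᶠ s : ℝ in 𝓝[>] 0, (s ∈ Set.Ioc (0 : ℝ) 1 ∧
      (∀ᶠ S in 𝓝 (γ s), RE d Λ S + RE d Λ S⁻¹ / S ^ 2 = 0) ∧ R' < ‖MF d (γ s)‖ ∧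
      R' < ‖MF d (γ s)⁻¹‖) := by
    have h1 : ∀ᶠ s : ℝ in 𝓝[>] 0, s ∈ Set.Ioc (0 : ℝ) 1 := Ioc_mem_nhdsGT one_pos
    filter_upwards [h1, htend.eventually (ev_ev (flex_inv_one h)),
      htend.eventually (ev_norm (tendsto_MF d) R'),
      htend.eventually (ev_norm ((tendsto_MF d).comp hinv) R')] with s h1 h2 h3 h4
    exact ⟨h1, h2, h3, h4⟩
  obtain ⟨s, hs, hs1, hs2, hs3⟩ := hev.exists
  have hg0 : γ s ≠ 0 := by
    intro h0
    have := hγn s
    rw [h0] at this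
    simp at this
  have h3 : (γ s)⁻¹ ≠ 1 := by
    intro h4
    exact hne s hs (inv_eq_one.1 h4)
  have htop : meromorphicOrderAt E (γ s) = ⊤ := by
    rw [meromorphicOrderAt_eq_top_iff]
    refine Filter.Eventually.filter_mono nhdsWithin_le_nhds ?_
    have h4 := MF_ev (hne s hs) (hre s hs).1 hs2
    have h5 := MF_ev h3 (hre s hs).2 hs3
    have h6 : Tendsto (fun T : ℂ => T⁻¹) (𝓝 (γ s)) (𝓝 (γ s)⁻¹) :=
      (ContinuousAt.inv₀ continuousAt_id hg0).tendsto
    filter_upwards [hs1, h4, h6.eventually h5] with S hS1 hS2 hS3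
    simp only [hE]
    rw [RE_congr (hL2 _ hS2.1 hS2.2), RE_congr (hL2 _ hS3.1 hS3.2)]
    exact hS1
  have hfin : meromorphicOrderAt E T0 = ⊤ := by
    by_contra hcon
    refine hEm.meromorphicOrderAt_ne_top_of_isPreconnected (x := T0) (y := γ s) hconn ?_ ?_ hcon htop
    · exact ⟨1, by simp, hγ1⟩
    · exact ⟨s, hs, rfl⟩
  rw [meromorphicOrderAt_eq_top_iff] at hfin
  exact hfin

theorem GoodF_step {d : ℂ} {Λ : ℂ → ℂ} {R : ℝ} (h : FlexSol d Λ R) {x : ℝ}
    (hx : GoodF Λ x) : GoodF Λ (x - (3 * d.re - 3 / 2)) := by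
  obtain ⟨L, R', hL1, hL2⟩ := hx
  set ε := 3 * d.re - 3 / 2 with hε
  refine ⟨fun J => RE d L (Tg J) / Jd (Tg J), |R| + |R'| + 4 + ‖3 * d + 1‖, ?_, ?_⟩
  · intro J0 hJ0
    set T0 := Tg J0 with hT0
    have h0 : T0 ≠ 0 := Tg_ne J0
    have hJT : Jf T0 = J0 := Jf_Tg J0
    have hn : 1 ≤ ‖T0‖ := Tg_norm J0
    rw [← hJT]
    have hcont : Tendsto Jf (𝓝[≠] T0) (𝓝 (Jf T0)) :=
      (Jf_analytic h0).continuousAt.tendsto.mono_left nhdsWithin_le_nhds
    have hJ0' : x - ε < (Jf T0).re := by rw [hJT]; exact hJ0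
    have hre : ∀ᶠ T in 𝓝[≠] T0, x - ε < (Jf T).re := by
      have ho : IsOpen {J : ℂ | x - ε < J.re} := isOpen_lt continuous_const Complex.continuous_re
      exact hcont.eventually_mem (ho.mem_nhds hJ0')
    have hTn0 : ∀ᶠ T in 𝓝[≠] T0, T ≠ 0 := ev_ne T0 0
    by_cases h1 : T0 = 1
    · -- the point `J = 2`
      have hm : MeromorphicAt (fun T => RE d Λ T / Jd T) T0 := by
        rw [h1]
        exact (RE_mero_one h).div (Jd_analytic one_ne_zero).meromorphicAt
      refine mero_descend h0 hm ?_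
      rw [h1] at hre hTn0 ⊢
      have hinv := tendsto_inv_one
      filter_upwards [hre, hTn0, ev_ne 1 1, flex_inv_one h,
        ev_norm (tendsto_MF d) R', ev_norm ((tendsto_MF d).comp hinv) R'] with T h2 h3 h4 h5 h6 h7
      have hg1 := Tg_norm (Jf T)
      have hg2 : Tg (Jf T) ≠ 1 := by
        intro h8
        have h9 := Jf_Tg (Jf T)
        rw [h8] at h9
        rcases root_cases h3 one_ne_zero h9 with h10 | h10
        · exact h4 h10.symm
        · exact h4 (inv_eq_one.1 h10.symm)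
      have hg3 := MF_re (d := d) hg1 hg2
      rw [Jf_Tg] at hg3
      have hg4 : R' < ‖MF d (Tg (Jf T))‖ := by
        rcases root_cases h3 (Tg_ne _) (Jf_Tg (Jf T)) with h8 | h8
        · rw [h8]; exact h6
        · rw [h8]; exact h7
      have hg5 : RE d L (Tg (Jf T)) = RE d Λ (Tg (Jf T)) := RE_congr (hL2 _ (by linarith) hg4)
      rw [hg5]
      rcases root_cases h3 (Tg_ne _) (Jf_Tg (Jf T)) with h8 | h8
      · rw [h8]
      · rw [h8, Jd_inv h3]
        have h9 : RE d Λ T⁻¹ = -(T ^ 2 * RE d Λ T) := inv_aux h3 h5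
        rw [h9, neg_mul, neg_div_neg_eq, mul_div_mul_left _ _ (pow_ne_zero 2 h3)]
    · have hM : x < (MF d T0).re := by
        have := MF_re (d := d) hn h1
        linarith
      have hm : MeromorphicAt (fun T => RE d L T / Jd T) T0 :=
        (RE_mero h1 (hL1 _ hM)).div (Jd_analytic h0).meromorphicAt
      refine mero_descend h0 hm ?_
      have key : ∀ᶠ T in 𝓝[≠] T0, Tg (Jf T) = T ∨ RE d L T + RE d L T⁻¹ / T ^ 2 = 0 := by
        rcases hn.lt_or_eq with h2 | h2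
        · have h3 : ∀ᶠ T in 𝓝 T0, 1 < ‖T‖ := (continuous_norm.tendsto T0).eventually_const_lt h2
          filter_upwards [h3.filter_mono nhdsWithin_le_nhds, hTn0] with T h4 h5
          left
          rcases root_cases h5 (Tg_ne _) (Jf_Tg (Jf T)) with h8 | h8
          · exact h8
          · exfalso
            have h9 := Tg_norm (Jf T)
            rw [h8, norm_inv] at h9
            have h10 : ‖T‖⁻¹ < 1 := inv_lt_one_of_one_lt₀ h4
            linarith
        · filter_upwards [arc_inv h hL1 hL2 h2.symm h1 hJ0'] with T hT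
          exact Or.inr hT
      filter_upwards [key, hTn0] with T h4 h5
      rcases h4 with h4 | h4
      · rw [h4]
      · rcases root_cases h5 (Tg_ne _) (Jf_Tg (Jf T)) with h8 | h8
        · rw [h8]
        · rw [h8, Jd_inv h5]
          have h9 : RE d L T⁻¹ = -(T ^ 2 * RE d L T) := inv_aux h5 h4
          rw [h9, neg_mul, neg_div_neg_eq, mul_div_mul_left _ _ (pow_ne_zero 2 h5)]
  · intro J hJ hR
    have hcn := norm_nonneg (3 * d + 1)
    have hRn := abs_nonneg R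
    have hRn' := abs_nonneg R'
    have hRl := le_abs_self R
    have hRl' := le_abs_self R'
    have h1 := norm_Tg_ge J
    have h2 : Tg J ≠ 1 := by
      intro h3
      rw [h3] at h1
      simp at h1
      linarith
    have h3 := MF_re (d := d) (Tg_norm J) h2
    rw [Jf_Tg] at h3
    have h4 := MF_norm (d := d) (T := Tg J) (by linarith)
    have h5 : RE d L (Tg J) = RE d Λ (Tg J) :=
      RE_congr (hL2 _ (by linarith) (by linarith))
    have h6 := h.ef (Tg J) (by linarith)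
    have h7 : RE d Λ (Tg J) = Λ J * Jd (Tg J) := by
      rw [Jf_Tg] at h6
      rw [h6]
      rfl
    have h8 : Jd (Tg J) ≠ 0 := by
      refine Jd_ne h2 ?_
      intro h9
      rw [h9] at h1
      simp at h1
      linarith
    simp only
    rw [h5, h7, mul_div_cancel_right₀ _ h8]

theorem GoodF_all {d : ℂ} {Λ : ℂ → ℂ} {R : ℝ} (h : FlexSol d Λ R) (hd : 1 / 2 < d.re) (x : ℝ) :
    GoodF Λ x := by
  have hb : GoodF Λ |R| := by
    refine ⟨Λ, R, ?_, fun _ _ _ => rfl⟩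
    intro J hJ
    refine (h.analytic ?_).meromorphicAt
    have := Complex.re_le_norm J
    have := le_abs_self R
    linarith
  have hε : 0 < 3 * d.re - 3 / 2 := by linarith
  have hn : ∀ n : ℕ, GoodF Λ (|R| - n * (3 * d.re - 3 / 2)) := by
    intro n
    induction n with
    | zero => simpa using hb
    | succ n ih =>
      have := GoodF_step h ih
      convert this using 1
      push_cast
      ring
  obtain ⟨n, hn1⟩ := exists_nat_gt ((|R| - x) / (3 * d.re - 3 / 2))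
  rw [div_lt_iff₀ hε] at hn1
  obtain ⟨L, R', h1, h2⟩ := hn n
  exact ⟨L, R', fun J h0 => h1 J (by linarith), fun J h0 => h2 J (by linarith)⟩

end Pool.Agent.MP_ae5b4e_an_GENL
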