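import Mathlib
import Pool.Agent.Lib.MP_ae5b4e_an_GENL.FlexC

/-!
# MP_ae5b4e_an, general involutions: the residues at an ordinary flex
-/

noncomputable section

namespace Pool.Agent.MP_ae5b4e_an_GENL

open Filter Topology

theorem mero_zero {U : Set ℂ} (hU : IsPreconnected U) {E : ℂ → ℂ} (hE : MeromorphicOn E U)
    {z0 : ℂ} (hz0 : z0 ∈ U) (h0 : ∀ᶠ z in 𝓝[≠] z0, E z = 0) {z : ℂ} (hz : z ∈ U) :
    ∀ᶠ w in 𝓝[≠] z, E w = 0 := by
  rw [← meromorphicOrderAt_eq_top_iff] at h0 ⊢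
  by_contra h
  exact hE.meromorphicOrderAt_ne_top_of_isPreconnected (x := z) (y := z0) hU hz hz0 h h0

/-- the data of the global continuation -/
structure FlexGlob (d : ℂ) (Λ : ℂ → ℂ) (R : ℝ) (L : ℂ → ℂ) (R1 : ℝ) : Prop where
  sol : FlexSol d Λ R
  mero : ∀ J : ℂ, MeromorphicAt L J
  eq : ∀ J : ℂ, R1 < ‖J‖ → L J = Λ J

theorem exists_glob {d : ℂ} {Λ : ℂ → ℂ} {R : ℝ} (h : FlexSol d Λ R) (hd : 1 / 2 < d.re) :
    ∃ L R1, FlexGlob d Λ R L R1 := by
  set c : ℂ := 3 * d + 1 with hc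
  obtain ⟨L, R', hL1, hL2⟩ := GoodF_all h hd (c.re / 2 - 2)
  set U : Set ℂ := {J : ℂ | c.re / 2 - 2 < J.re ∧ J.re < c.re / 2 + 2} with hU
  have hUc : IsPreconnected U :=
    ((convex_halfSpace_re_gt _).inter (convex_halfSpace_re_lt _)).isPreconnected
  have hcm : ∀ J : ℂ, J ∈ U → c - J ∈ U := by
    intro J hJ
    have : (c - J).re = c.re - J.re := by simp
    constructor
    · rw [this]; linarith [hJ.2]
    · rw [this]; linarith [hJ.1]
  have hE : MeromorphicOn (fun J => L (c - J) + L J) U := by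
    intro J hJ
    have h1 : MeromorphicAt (fun J => L (c - J)) J :=
      MeromorphicAt.comp_analyticAt (hL1 _ (hcm J hJ).1) (by fun_prop)
    exact h1.add (hL1 _ hJ.1)
  have hfar : ∀ J ∈ U, |R| + |R'| + ‖c‖ < ‖J‖ → L (c - J) + L J = 0 := by
    intro J hJ hJ2
    have hcn := norm_nonneg c
    have hRn := abs_nonneg R
    have hRn' := abs_nonneg R'
    have hRl := le_abs_self R
    have hRl' := le_abs_self R'
    have h1 : ‖J‖ - ‖c‖ ≤ ‖c - J‖ := by
      have h8 := norm_sub_norm_le J c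
      rwa [norm_sub_rev J c] at h8
    rw [hL2 _ (hcm J hJ).1 (by linarith), hL2 _ hJ.1 (by linarith),
      h.odd J (by linarith) (by linarith)]
    ring
  have hstrip : ∀ J ∈ U, ∀ᶠ w in 𝓝[≠] J, L (c - w) + L w = 0 := by
    intro J hJ
    set z0 : ℂ := ⟨c.re / 2, |R| + |R'| + ‖c‖ + 1⟩ with hz0
    have hz0U : z0 ∈ U := by
      constructor
      · show c.re / 2 - 2 < c.re / 2; linarith
      · show c.re / 2 < c.re / 2 + 2; linarith
    refine mero_zero hUc hE hz0U ?_ hJ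
    refine Filter.Eventually.filter_mono nhdsWithin_le_nhds ?_
    have ho : IsOpen {J : ℂ | |R| + |R'| + ‖c‖ < ‖J‖} := isOpen_lt continuous_const continuous_norm
    have hUo : IsOpen U := (isOpen_lt continuous_const Complex.continuous_re).inter
      (isOpen_lt Complex.continuous_re continuous_const)
    have hm : z0 ∈ {J : ℂ | |R| + |R'| + ‖c‖ < ‖J‖} := by
      have h1 := Complex.abs_im_le_norm z0
      have h2 : z0.im = |R| + |R'| + ‖c‖ + 1 := rfl
      have h3 := le_abs_self z0.im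
      show |R| + |R'| + ‖c‖ < ‖z0‖
      linarith
    filter_upwards [ho.mem_nhds hm, hUo.mem_nhds hz0U] with w hw1 hw2
    exact hfar w hw2 hw1
  refine ⟨fun J => if c.re / 2 - 1 < J.re then L J else -L (c - J),
    |R| + |R'| + ‖c‖, h, ?_, ?_⟩
  · intro J0
    rcases lt_or_ge (c.re / 2 - 2) J0.re with h1 | h1
    · refine (hL1 J0 h1).congr ?_
      rcases lt_or_ge J0.re (c.re / 2 + 2) with h2 | h2
      · filter_upwards [hstrip J0 ⟨h1, h2⟩] with w hw
        split_ifs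
        · rfl
        · linear_combination hw
      · have ho : IsOpen {J : ℂ | c.re / 2 - 1 < J.re} :=
          isOpen_lt continuous_const Complex.continuous_re
        have h3 : ∀ᶠ w in 𝓝 J0, c.re / 2 - 1 < w.re :=
          ho.mem_nhds (show c.re / 2 - 1 < J0.re by linarith)
        filter_upwards [h3.filter_mono nhdsWithin_le_nhds] with w hw
        rw [if_pos hw]
    · have h2 : MeromorphicAt (fun J => -L (c - J)) J0 := by
        have h3 : c.re / 2 - 2 < (c - J0).re := by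
          rw [Complex.sub_re]
          have : 1 / 2 < c.re := by
            rw [hc]
            simp
            linarith
          linarith
        have h4 : MeromorphicAt (fun J => L (c - J)) J0 :=
          MeromorphicAt.comp_analyticAt (hL1 _ h3) (by fun_prop)
        exact h4.neg
      refine h2.congr ?_
      have ho : IsOpen {J : ℂ | J.re < c.re / 2 - 1} :=
        isOpen_lt Complex.continuous_re continuous_const
      have h3 : ∀ᶠ w in 𝓝 J0, w.re < c.re / 2 - 1 :=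
        ho.mem_nhds (show J0.re < c.re / 2 - 1 by linarith)
      filter_upwards [h3.filter_mono nhdsWithin_le_nhds] with w hw
      rw [if_neg (not_lt.2 hw.le)]
  · intro J hJ
    have hcn := norm_nonneg c
    have hRn := abs_nonneg R
    have hRn' := abs_nonneg R'
    have hRl := le_abs_self R
    have hRl' := le_abs_self R'
    split_ifs with h1
    · exact hL2 J (by linarith) (by linarith)
    · have h2 : ‖J‖ - ‖c‖ ≤ ‖c - J‖ := by
        have h8 := norm_sub_norm_le J c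
        rwa [norm_sub_rev J c] at h8
      have h3 : c.re / 2 - 2 < (c - J).re := by
        rw [Complex.sub_re]
        linarith
      rw [hL2 _ h3 (by linarith), h.odd J (by linarith) (by linarith), neg_neg]

variable {d : ℂ} {Λ : ℂ → ℂ} {R : ℝ} {L : ℂ → ℂ} {R1 : ℝ}

theorem FlexGlob.odd (g : FlexGlob d Λ R L R1) (J0 : ℂ) :
    ∀ᶠ J in 𝓝[≠] J0, L (3 * d + 1 - J) = -L J := by
  set c : ℂ := 3 * d + 1 with hc
  have hE : MeromorphicOn (fun J => L (c - J) + L J) Set.univ := by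
    intro J _
    have h1 : MeromorphicAt (fun J => L (c - J)) J :=
      MeromorphicAt.comp_analyticAt (g.mero _) (by fun_prop)
    exact h1.add (g.mero _)
  have hcn := norm_nonneg c
  have hRn := abs_nonneg R
  have hRn' := abs_nonneg R1
  have hRl := le_abs_self R
  have hRl' := le_abs_self R1
  set z0 : ℂ := ((|R| + |R1| + ‖c‖ + 1 : ℝ) : ℂ) with hz0
  have hz0n : ‖z0‖ = |R| + |R1| + ‖c‖ + 1 := by
    rw [hz0, Complex.norm_real, Real.norm_of_nonneg (by positivity)]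
  have h0 : ∀ᶠ J in 𝓝[≠] z0, L (c - J) + L J = 0 := by
    refine Filter.Eventually.filter_mono nhdsWithin_le_nhds ?_
    have ho : IsOpen {J : ℂ | |R| + |R1| + ‖c‖ < ‖J‖} :=
      isOpen_lt continuous_const continuous_norm
    filter_upwards [ho.mem_nhds (show |R| + |R1| + ‖c‖ < ‖z0‖ by rw [hz0n]; linarith)] with J hJ
    have hJ : |R| + |R1| + ‖c‖ < ‖J‖ := hJ
    have h2 : ‖J‖ - ‖c‖ ≤ ‖c - J‖ := by
      have h8 := norm_sub_norm_le J c
      rwa [norm_sub_rev J c] at h8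
    rw [g.eq _ (by linarith), g.eq _ (by linarith), g.sol.odd J (by linarith) (by linarith)]
    ring
  filter_upwards [mero_zero isPreconnected_univ hE (Set.mem_univ z0) h0 (Set.mem_univ J0)] with J hJ
  linear_combination hJ

theorem FlexGlob.RE_mero_all (g : FlexGlob d Λ R L R1) (T0 : ℂ) : MeromorphicAt (RE d L) T0 := by
  by_cases h1 : T0 = 1
  · rw [h1]
    refine (RE_mero_one g.sol).congr ?_
    filter_upwards [ev_norm (tendsto_MF d) R1] with T hT
    exact RE_congr (g.eq _ hT).symm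
  · exact RE_mero h1 (g.mero _)

theorem FlexGlob.fe (g : FlexGlob d Λ R L R1) {T0 : ℂ} (h0 : T0 ≠ 0) :
    ∀ᶠ T in 𝓝[≠] T0, L (Jf T) * Jd T = RE d L T := by
  set U : Set ℂ := ({0} : Set ℂ)ᶜ with hU
  have hUc : IsPreconnected U := by
    have : IsConnected U := Set.Countable.isConnected_compl_of_one_lt_rank (by simp)
      (Set.toFinite ({0} : Set ℂ)).countable
    exact this.isPreconnected
  have hmem : ∀ T : ℂ, T ∈ U ↔ T ≠ 0 := by
    intro T
    simp [hU]
  have hE : MeromorphicOn (fun T => L (Jf T) * Jd T - RE d L T) U := by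
    intro T hT
    rw [hmem] at hT
    have h1 : MeromorphicAt (fun T => L (Jf T)) T :=
      MeromorphicAt.comp_analyticAt (g.mero _) (Jf_analytic hT)
    exact (h1.mul (Jd_analytic hT).meromorphicAt).sub (g.RE_mero_all T)
  set N : ℝ := |R| + |R1| + ‖3 * d + 1‖ + 4 with hN
  have hcn := norm_nonneg (3 * d + 1)
  have hRn := abs_nonneg R
  have hRn' := abs_nonneg R1
  have hRl := le_abs_self R
  have hRl' := le_abs_self R1
  set z0 : ℂ := ((N + 1 : ℝ) : ℂ) with hz0
  have hz0n : ‖z0‖ = N + 1 := by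
    rw [hz0, Complex.norm_real, Real.norm_of_nonneg (by positivity)]
  have hz0U : z0 ∈ U := by
    rw [hmem]
    intro h2
    rw [h2, norm_zero] at hz0n
    linarith
  have h2 : ∀ᶠ T in 𝓝[≠] z0, L (Jf T) * Jd T - RE d L T = 0 := by
    refine Filter.Eventually.filter_mono nhdsWithin_le_nhds ?_
    have ho : IsOpen {J : ℂ | N < ‖J‖} := isOpen_lt continuous_const continuous_norm
    filter_upwards [ho.mem_nhds (show N < ‖z0‖ by rw [hz0n]; linarith)] with T hT
    have hT : N < ‖T‖ := hT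
    have h3 := Jf_norm_ge' (S := T) (by linarith)
    have h4 := MF_norm (d := d) (T := T) (by linarith)
    rw [g.eq (Jf T) (by linarith), RE_congr (g.eq (MF d T) (by linarith)),
      g.sol.ef T (by linarith)]
    unfold RE MF
    ring
  have h3 := mero_zero hUc hE hz0U h2 ((hmem T0).2 h0)
  filter_upwards [h3] with T hT
  exact sub_eq_zero.1 hT

/-- `L` has at `J0` at most a simple pole, with residue `ρ` -/
def IsRes (L : ℂ → ℂ) (J0 ρ : ℂ) : Prop :=
  Tendsto (fun J => (J - J0) * L J) (𝓝[≠] J0) (𝓝 ρ)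

theorem IsRes.unique {L : ℂ → ℂ} {J0 ρ ρ' : ℂ} (h : IsRes L J0 ρ) (h' : IsRes L J0 ρ') :
    ρ = ρ' := tendsto_nhds_unique h h'

theorem IsRes_of_analytic {L : ℂ → ℂ} {J0 : ℂ} (h : AnalyticAt ℂ L J0) : IsRes L J0 0 := by
  have h1 : ContinuousAt (fun J => (J - J0) * L J) J0 :=
    ContinuousAt.mul (by fun_prop) h.continuousAt
  have h2 := h1.tendsto
  simp only [sub_self, zero_mul] at h2
  exact h2.mono_left nhdsWithin_le_nhds

theorem FlexGlob.res_odd (g : FlexGlob d Λ R L R1) {J0 ρ : ℂ} (h : IsRes L J0 ρ) :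
    IsRes L (3 * d + 1 - J0) ρ := by
  set c : ℂ := 3 * d + 1 with hc
  have ht : Tendsto (fun J : ℂ => c - J) (𝓝[≠] (c - J0)) (𝓝[≠] J0) := by
    rw [tendsto_nhdsWithin_iff]
    constructor
    · have h1 : ContinuousAt (fun J : ℂ => c - J) (c - J0) := by fun_prop
      have h2 := h1.tendsto
      simp only [sub_sub_cancel] at h2
      exact h2.mono_left nhdsWithin_le_nhds
    · filter_upwards [self_mem_nhdsWithin] with J hJ h2
      apply hJ
      show J = c - J0
      have h2 : c - J = J0 := h2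
      linear_combination -h2
  have h1 := h.comp ht
  refine h1.congr' ?_
  filter_upwards [ht.eventually (g.odd J0)] with J hJ
  simp only [Function.comp_apply]
  have h3 : 3 * d + 1 - (c - J) = J := by rw [← hc]; ring
  rw [h3] at hJ
  rw [hJ]
  ring

theorem FlexGlob.res_far (g : FlexGlob d Λ R L R1) {J0 : ℂ} (h1 : R < ‖J0‖) (h2 : R1 < ‖J0‖) :
    IsRes L J0 0 := by
  have h3 := IsRes_of_analytic (g.sol.analytic h1)
  refine h3.congr' ?_
  have ho : IsOpen {J : ℂ | R1 < ‖J‖} := isOpen_lt continuous_const continuous_norm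
  refine Filter.Eventually.filter_mono nhdsWithin_le_nhds ?_
  filter_upwards [ho.mem_nhds h2] with J hJ
  rw [g.eq J hJ]

theorem Jf_tendsto {T0 : ℂ} (h0 : T0 ≠ 0) : Tendsto Jf (𝓝[≠] T0) (𝓝[≠] (Jf T0)) := by
  rw [tendsto_nhdsWithin_iff]
  constructor
  · exact (Jf_analytic h0).continuousAt.tendsto.mono_left nhdsWithin_le_nhds
  · filter_upwards [ev_ne T0 T0, ev_ne T0 T0⁻¹, ev_ne T0 0] with T h1 h2 h3 h4
    rcases root_cases h0 h3 h4 with h5 | h5
    · exact h1 h5
    · exact h2 h5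

/-- residues on the `T`-plane and on the `J`-plane -/
theorem res_down {L : ℂ → ℂ} {T0 ρ : ℂ} (h0 : T0 ≠ 0) (h1 : T0 ≠ 1) (h2 : T0 ≠ -1)
    (h : IsRes (fun T => L (Jf T) * Jd T) T0 ρ) : IsRes L (Jf T0) ρ := by
  refine Tendsto.mono_left ?_ (nhdsNE_le_map h0)
  rw [tendsto_map'_iff]
  have h3 : Jd T0 ≠ 0 := Jd_ne h1 h2
  have h4 : ContinuousAt (fun T : ℂ => (1 - (T * T0)⁻¹) / Jd T) T0 := by
    refine ContinuousAt.div (continuousAt_const.sub ?_) (Jd_analytic h0).continuousAt h3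
    exact ContinuousAt.inv₀ (by fun_prop) (mul_ne_zero h0 h0)
  have h5 : (1 - (T0 * T0)⁻¹) / Jd T0 = 1 := by
    rw [← pow_two]
    exact div_self h3
  have h6 : Tendsto (fun T : ℂ => (1 - (T * T0)⁻¹) / Jd T) (𝓝[≠] T0) (𝓝 1) := by
    have := h4.tendsto
    rw [h5] at this
    exact this.mono_left nhdsWithin_le_nhds
  have h7 := h6.mul h
  rw [one_mul] at h7
  refine h7.congr' ?_
  filter_upwards [ev_ne T0 0, Jd_ev_ne T0] with T hT1 hT2
  simp only [Function.comp_apply]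
  rw [Jf_sub hT1 h0]
  field_simp

theorem MF_sub_MF {d T T0 : ℂ} (h1 : T ≠ 1) (h2 : T0 ≠ 1) :
    MF d T - MF d T0 = (T - T0) * (1 - ((T - 1) * (T0 - 1))⁻¹) := by
  unfold MF
  have h3 := Jf_sub (sub_ne_zero.2 h1) (sub_ne_zero.2 h2)
  linear_combination h3

theorem MF_tendsto {T0 : ℂ} (h1 : T0 ≠ 1) : Tendsto (MF d) (𝓝[≠] T0) (𝓝[≠] (MF d T0)) := by
  rw [tendsto_nhdsWithin_iff]
  constructor
  · exact (MF_analytic h1).continuousAt.tendsto.mono_left nhdsWithin_le_nhds
  · filter_upwards [ev_ne T0 T0, ev_ne T0 (1 + (T0 - 1)⁻¹), ev_ne T0 1] with T h2 h3 h4 h5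
    have h6 : MF d T - MF d T0 = 0 := sub_eq_zero.2 h5
    rw [MF_sub_MF h4 h1] at h6
    rcases mul_eq_zero.1 h6 with h7 | h7
    · exact h2 (sub_eq_zero.1 h7)
    · apply h3
      have h8 : (T - 1) * (T0 - 1) = 1 := inv_eq_one.1 (sub_eq_zero.1 h7).symm
      have h9 : T - 1 = (T0 - 1)⁻¹ := eq_inv_of_mul_eq_one_left h8
      linear_combination h9

/-- the residue of the second term of `RE` -/
theorem res_MF {T0 ρ : ℂ} (h1 : T0 ≠ 1) (h2 : T0 ≠ 2) (h0 : T0 ≠ 0)
    (h : IsRes L (MF d T0) ρ) : IsRes (fun T => L (MF d T) * Jd (T - 1)) T0 ρ := by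
  have h3 : Jd (T0 - 1) ≠ 0 := by
    refine Jd_ne ?_ ?_
    · intro h; apply h2; linear_combination h
    · intro h; apply h0; linear_combination h
  have h4 : ContinuousAt (fun T : ℂ => Jd (T - 1) / (1 - ((T - 1) * (T0 - 1))⁻¹)) T0 := by
    refine ContinuousAt.div (Jd1_analytic h1).continuousAt (continuousAt_const.sub ?_) ?_
    · exact ContinuousAt.inv₀ (by fun_prop) (mul_ne_zero (sub_ne_zero.2 h1) (sub_ne_zero.2 h1))
    · rw [← pow_two]
      exact h3
  have h5 : Jd (T0 - 1) / (1 - ((T0 - 1) * (T0 - 1))⁻¹) = 1 := by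
    rw [← pow_two]
    exact div_self h3
  have h6 : Tendsto (fun T : ℂ => Jd (T - 1) / (1 - ((T - 1) * (T0 - 1))⁻¹)) (𝓝[≠] T0) (𝓝 1) := by
    have := h4.tendsto
    rw [h5] at this
    exact this.mono_left nhdsWithin_le_nhds
  have h7 := (h.comp (MF_tendsto h1)).mul h6
  rw [mul_one] at h7
  refine h7.congr' ?_
  filter_upwards [ev_ne T0 1, ev_ne T0 T0, ev_ne T0 (1 + (T0 - 1)⁻¹)] with T hT1 hT2 hT3
  simp only [Function.comp_apply]
  rw [MF_sub_MF hT1 h1]
  have h8 : 1 - ((T - 1) * (T0 - 1))⁻¹ ≠ 0 := by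
    intro h7
    apply hT3
    have h8 : (T - 1) * (T0 - 1) = 1 := inv_eq_one.1 (sub_eq_zero.1 h7).symm
    have h9 : T - 1 = (T0 - 1)⁻¹ := eq_inv_of_mul_eq_one_left h8
    linear_combination h9
  rw [show (T - T0) * (1 - ((T - 1) * (T0 - 1))⁻¹) * L (MF d T) *
    (Jd (T - 1) / (1 - ((T - 1) * (T0 - 1))⁻¹)) = (T - T0) * L (MF d T) * Jd (T - 1) *
    ((1 - ((T - 1) * (T0 - 1))⁻¹) / (1 - ((T - 1) * (T0 - 1))⁻¹)) by ring, div_self h8]
  ring

theorem res_inv {a T0 : ℂ} (h : T0 ≠ a) : IsRes (fun T => (T - a)⁻¹) T0 0 := by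
  have h1 : ContinuousAt (fun T : ℂ => (T - T0) * (T - a)⁻¹) T0 := by
    refine ContinuousAt.mul (by fun_prop) ?_
    exact ContinuousAt.inv₀ (by fun_prop) (sub_ne_zero.2 h)
  have h2 := h1.tendsto
  simp only [sub_self, zero_mul] at h2
  exact h2.mono_left nhdsWithin_le_nhds

theorem res_inv_self (a : ℂ) : IsRes (fun T => (T - a)⁻¹) a 1 := by
  have h : Tendsto (fun _ : ℂ => (1 : ℂ)) (𝓝[≠] a) (𝓝 1) := tendsto_const_nhds
  refine h.congr' ?_
  filter_upwards [ev_ne a a] with T hT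
  rw [mul_inv_cancel₀ (sub_ne_zero.2 hT)]

theorem IsRes.add {f g : ℂ → ℂ} {a ρ ρ' : ℂ} (h : IsRes f a ρ) (h' : IsRes g a ρ') :
    IsRes (fun T => f T + g T) a (ρ + ρ') := by
  have := Tendsto.add h h'
  refine this.congr (fun T => ?_)
  ring

theorem IsRes.sub {f g : ℂ → ℂ} {a ρ ρ' : ℂ} (h : IsRes f a ρ) (h' : IsRes g a ρ') :
    IsRes (fun T => f T - g T) a (ρ - ρ') := by
  have := Tendsto.sub h h'
  refine this.congr (fun T => ?_)
  ring

theorem IsRes.const_mul {f : ℂ → ℂ} {a ρ : ℂ} (h : IsRes f a ρ) (c : ℂ) :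
    IsRes (fun T => c * f T) a (c * ρ) := by
  have := Tendsto.const_mul c h
  refine this.congr (fun T => ?_)
  ring

theorem IsRes.congr {f g : ℂ → ℂ} {a ρ : ℂ} (h : IsRes f a ρ) (h' : ∀ᶠ T in 𝓝[≠] a, f T = g T) :
    IsRes g a ρ := by
  refine Tendsto.congr' ?_ h
  filter_upwards [h'] with T hT
  rw [hT]

theorem res_rat (d : ℂ) {T0 : ℂ} (h1 : T0 ≠ -1) (h2 : T0 ≠ 2) :
    IsRes (fun T : ℂ => d * ((T + 1)⁻¹ - (T - 2)⁻¹)) T0 0 := by
  have h3 := ((res_inv h1).sub (res_inv h2)).const_mul d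
  rw [sub_self, mul_zero] at h3
  refine h3.congr (Eventually.of_forall fun T => ?_)
  rw [sub_neg_eq_add]

theorem res_rat_two (d : ℂ) :
    IsRes (fun T : ℂ => d * ((T + 1)⁻¹ - (T - 2)⁻¹)) 2 (-d) := by
  have h3 := ((res_inv (a := -1) (T0 := 2) (by norm_num)).sub (res_inv_self 2)).const_mul d
  have h4 : d * (0 - 1) = -d := by ring
  rw [h4] at h3
  refine h3.congr (Eventually.of_forall fun T => ?_)
  rw [sub_neg_eq_add]

theorem res_rat_neg (d : ℂ) :
    IsRes (fun T : ℂ => d * ((T + 1)⁻¹ - (T - 2)⁻¹)) (-1) d := by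
  have h3 := ((res_inv_self (-1)).sub (res_inv (a := 2) (T0 := -1) (by norm_num))).const_mul d
  have h4 : d * (1 - 0) = d := by ring
  rw [h4] at h3
  refine h3.congr (Eventually.of_forall fun T => ?_)
  rw [sub_neg_eq_add]

/-- moving a residue along `M` -/
theorem FlexGlob.move (g : FlexGlob d Λ R L R1) {T0 ρ : ℂ} (h0 : T0 ≠ 0) (h1 : T0 ≠ 1)
    (h2 : T0 ≠ -1) (h3 : T0 ≠ 2) (h : IsRes L (MF d T0) ρ) : IsRes L (Jf T0) ρ := by
  refine res_down h0 h1 h2 ?_
  have h4 := (res_rat d h2 h3).add (res_MF h1 h3 h0 h)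
  rw [zero_add] at h4
  refine h4.congr ?_
  filter_upwards [g.fe h0] with T hT
  rw [hT]
  rfl

end Pool.Agent.MP_ae5b4e_an_GENL
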