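import Mathlib
import Pool.Agent.Lib.MP_ae5b4e_an_GENL.FlexD

/-!
# MP_ae5b4e_an, general involutions: the bound `Re d ≤ 1/2` at an ordinary flex
-/

noncomputable section

namespace Pool.Agent.MP_ae5b4e_an_GENL

open Filter Topology

/-! ### counting -/

theorem Tg_inj {J J' : ℂ} (h : Tg J = Tg J') : J = J' := by
  have := congrArg Jf h
  rwa [Jf_Tg, Jf_Tg] at this

/-- the double cover of a finite set -/
def lft (Q : Finset ℂ) : Finset ℂ := Q.image Tg ∪ Q.image (fun J => (Tg J)⁻¹)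

theorem mem_lft {Q : Finset ℂ} {T : ℂ} : T ∈ lft Q ↔ T ≠ 0 ∧ Jf T ∈ Q := by
  unfold lft
  rw [Finset.mem_union, Finset.mem_image, Finset.mem_image]
  constructor
  · rintro (⟨J, hJ, rfl⟩ | ⟨J, hJ, rfl⟩)
    · exact ⟨Tg_ne J, by rwa [Jf_Tg]⟩
    · exact ⟨inv_ne_zero (Tg_ne J), by rwa [Jf_inv, Jf_Tg]⟩
  · rintro ⟨h0, hQ⟩
    rcases root_cases (Tg_ne (Jf T)) h0 (by rw [Jf_Tg]) with h | h
    · exact Or.inl ⟨Jf T, hQ, h.symm⟩
    · exact Or.inr ⟨Jf T, hQ, h.symm⟩

theorem lft_disj {Q : Finset ℂ} (h2 : (2 : ℂ) ∉ Q) (h2' : (-2 : ℂ) ∉ Q) :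
    Disjoint (Q.image Tg) (Q.image (fun J => (Tg J)⁻¹)) := by
  rw [Finset.disjoint_left]
  intro T h1 h3
  rw [Finset.mem_image] at h1 h3
  obtain ⟨J, hJ, hJT⟩ := h1
  obtain ⟨J', hJ', hJT'⟩ := h3
  have h4 : J = J' := by
    have e1 : Jf T = J := by rw [← hJT, Jf_Tg]
    have e2 : Jf T = J' := by rw [← hJT', Jf_inv, Jf_Tg]
    rw [← e1, e2]
  subst h4
  have h5 : Tg J = (Tg J)⁻¹ := hJT.trans hJT'.symm
  have h6 : Tg J * Tg J = 1 := by
    calc Tg J * Tg J = (Tg J)⁻¹ * Tg J := by rw [← h5]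
      _ = 1 := inv_mul_cancel₀ (Tg_ne J)
  have h7 : (Tg J - 1) * (Tg J + 1) = 0 := by linear_combination h6
  have h8 := Jf_Tg J
  rcases mul_eq_zero.1 h7 with h | h
  · rw [sub_eq_zero.1 h] at h8
    apply h2
    have : J = 2 := by rw [← h8]; unfold Jf; norm_num
    rwa [← this]
  · rw [eq_neg_of_add_eq_zero_left h] at h8
    apply h2'
    have : J = -2 := by rw [← h8]; unfold Jf; norm_num
    rwa [← this]

theorem lft_card {Q : Finset ℂ} (h2 : (2 : ℂ) ∉ Q) (h2' : (-2 : ℂ) ∉ Q) :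
    (lft Q).card = 2 * Q.card := by
  unfold lft
  rw [Finset.card_union_of_disjoint (lft_disj h2 h2'),
    Finset.card_image_of_injective _ (fun _ _ => Tg_inj),
    Finset.card_image_of_injective _ (fun _ _ h => Tg_inj (inv_injective h))]
  ring

theorem lft_sum {Q : Finset ℂ} (h2 : (2 : ℂ) ∉ Q) (h2' : (-2 : ℂ) ∉ Q) :
    ∑ T ∈ lft Q, T = ∑ J ∈ Q, J := by
  unfold lft
  rw [Finset.sum_union (lft_disj h2 h2'), Finset.sum_image (fun _ _ _ _ => Tg_inj),
    Finset.sum_image (fun _ _ _ _ h => Tg_inj (inv_injective h)), ← Finset.sum_add_distrib]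
  refine Finset.sum_congr rfl fun J _ => ?_
  exact Jf_Tg J

/-- the sum over a finite set which is invariant under `T → c - T` -/
theorem sum_sym {Q : Finset ℂ} {c : ℂ} (h : ∀ T ∈ Q, c - T ∈ Q) :
    2 * ∑ T ∈ Q, T = c * Q.card := by
  have h1 : ∑ T ∈ Q, T = ∑ T ∈ Q, (c - T) := by
    refine Finset.sum_bij' (fun T _ => c - T) (fun T _ => c - T) h h ?_ ?_ ?_
    · intro T _; ring
    · intro T _; ring
    · intro T _; ring
  have h2 : ∑ T ∈ Q, (c - T) = c * Q.card - ∑ T ∈ Q, T := by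
    rw [Finset.sum_sub_distrib, Finset.sum_const, nsmul_eq_mul]
    ring
  linear_combination h1 + h2

theorem count_P {c : ℂ} {P : Finset ℂ} (hodd : ∀ J ∈ P, c - J ∈ P) (h52 : (5 / 2 : ℂ) ∈ P)
    (h2 : (2 : ℂ) ∉ P) (h2' : (-2 : ℂ) ∉ P)
    (hinv : ∀ T : ℂ, T ≠ 0 → T ≠ 1 → T ≠ -1 → T ≠ 2 → Jf T ∈ P → Jf (1 - T) ∈ P) :
    c * P.card = 2 * P.card + 3 := by
  have hJ2 : Jf 2 = 5 / 2 := by unfold Jf; norm_num
  have hJ1 : Jf 1 = 2 := by unfold Jf; norm_num
  have hJm : Jf (-1) = -2 := by unfold Jf; norm_num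
  have hmem2 : (2 : ℂ) ∈ lft P := mem_lft.2 ⟨two_ne_zero, by rw [hJ2]; exact h52⟩
  have h1 : ∀ T ∈ (lft P).erase 2, 1 - T ∈ (lft P).erase 2 := by
    intro T hT
    rw [Finset.mem_erase, mem_lft] at hT ⊢
    obtain ⟨hT2, hT0, hTP⟩ := hT
    have hT1 : T ≠ 1 := by
      rintro rfl
      rw [hJ1] at hTP
      exact h2 hTP
    have hTm : T ≠ -1 := by
      rintro rfl
      rw [hJm] at hTP
      exact h2' hTP
    refine ⟨?_, sub_ne_zero.2 (Ne.symm hT1), hinv T hT0 hT1 hTm hT2 hTP⟩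
    intro h
    apply hTm
    linear_combination -h
  have h3 := sum_sym h1
  have h4 : ((lft P).erase 2).card + 1 = (lft P).card := Finset.card_erase_add_one hmem2
  have h5 : ∑ T ∈ (lft P).erase 2, T + 2 = ∑ T ∈ lft P, T := by
    rw [add_comm]
    exact Finset.add_sum_erase (lft P) (fun T => T) hmem2
  rw [lft_card h2 h2'] at h4
  rw [lft_sum h2 h2'] at h5
  have h6 : (((lft P).erase 2).card : ℂ) + 1 = 2 * P.card := by exact_mod_cast h4
  have h7 := sum_sym hodd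
  linear_combination -h7 - 2 * h5 + h3 + h6

theorem count_Z {c : ℂ} {Z : Finset ℂ} (hodd : ∀ J ∈ Z, c - J ∈ Z) (h2 : (2 : ℂ) ∈ Z)
    (h52 : (5 / 2 : ℂ) ∉ Z) (h2' : (-2 : ℂ) ∉ Z)
    (hinv : ∀ T : ℂ, T ≠ 0 → T ≠ 1 → T ≠ -1 → T ≠ 2 → Jf T ∈ Z → Jf (1 - T) ∈ Z) :
    c * Z.card = 2 * Z.card + 2 := by
  have hJ2 : Jf 2 = 5 / 2 := by unfold Jf; norm_num
  have hJ1 : Jf 1 = 2 := by unfold Jf; norm_num
  have hJm : Jf (-1) = -2 := by unfold Jf; norm_num
  have h1 : ∀ T ∈ lft (Z.erase 2), 1 - T ∈ lft (Z.erase 2) := by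
    intro T hT
    rw [mem_lft, Finset.mem_erase] at hT ⊢
    obtain ⟨hT0, hT1, hTP⟩ := hT
    have hTn1 : T ≠ 1 := by
      rintro rfl
      exact hT1 hJ1
    have hTm : T ≠ -1 := by
      rintro rfl
      rw [hJm] at hTP
      exact h2' hTP
    have hT2 : T ≠ 2 := by
      rintro rfl
      rw [hJ2] at hTP
      exact h52 hTP
    refine ⟨sub_ne_zero.2 (Ne.symm hTn1), ?_, hinv T hT0 hTn1 hTm hT2 hTP⟩
    intro h
    rw [← hJ1] at h
    rcases root_cases one_ne_zero (sub_ne_zero.2 (Ne.symm hTn1)) h with h3 | h3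
    · apply hT0
      linear_combination -h3
    · apply hT0
      rw [inv_one] at h3
      linear_combination -h3
  have e1 : (2 : ℂ) ∉ Z.erase 2 := Finset.notMem_erase _ _
  have e2 : (-2 : ℂ) ∉ Z.erase 2 := fun h => h2' (Finset.mem_of_mem_erase h)
  have h3 := sum_sym h1
  rw [lft_card e1 e2, lft_sum e1 e2] at h3
  have h4 : (Z.erase 2).card + 1 = Z.card := Finset.card_erase_add_one h2
  have h5 : ∑ T ∈ Z.erase 2, T + 2 = ∑ T ∈ Z, T := by
    rw [add_comm]
    exact Finset.add_sum_erase Z (fun T => T) h2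
  have h6 : ((Z.erase 2).card : ℂ) + 1 = Z.card := by exact_mod_cast h4
  have h7 := sum_sym hodd
  push_cast at h3
  linear_combination -h7 - 2 * h5 + h3 + 2 * h6

theorem count_contra {c : ℂ} {P Z : Finset ℂ} (hc : 5 / 2 < c.re)
    (hPodd : ∀ J ∈ P, c - J ∈ P) (hZodd : ∀ J ∈ Z, c - J ∈ Z)
    (hP52 : (5 / 2 : ℂ) ∈ P) (hP2 : (2 : ℂ) ∉ P) (hPm : (-2 : ℂ) ∉ P)
    (hZ2 : (2 : ℂ) ∈ Z) (hZ52 : (5 / 2 : ℂ) ∉ Z) (hZm : (-2 : ℂ) ∉ Z)
    (hPinv : ∀ T : ℂ, T ≠ 0 → T ≠ 1 → T ≠ -1 → T ≠ 2 → Jf T ∈ P → Jf (1 - T) ∈ P)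
    (hZinv : ∀ T : ℂ, T ≠ 0 → T ≠ 1 → T ≠ -1 → T ≠ 2 → Jf T ∈ Z → Jf (1 - T) ∈ Z) : False := by
  have h1 := count_P hPodd hP52 hP2 hPm hPinv
  have h2 := count_Z hZodd hZ2 hZ52 hZm hZinv
  have h1r : c.re * P.card = 2 * P.card + 3 := by
    have := congrArg Complex.re h1
    simpa using this
  have h2r : c.re * Z.card = 2 * Z.card + 2 := by
    have := congrArg Complex.re h2
    simpa using this
  have hPpos : 0 < P.card := Finset.card_pos.2 ⟨_, hP52⟩
  have hZpos : 0 < Z.card := Finset.card_pos.2 ⟨_, hZ2⟩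
  have hPlt : P.card < 6 := by
    by_contra h
    push Not at h
    have : (6 : ℝ) ≤ P.card := by exact_mod_cast h
    nlinarith
  have hZlt : Z.card < 4 := by
    by_contra h
    push Not at h
    have : (4 : ℝ) ≤ Z.card := by exact_mod_cast h
    nlinarith
  have hPZ : 2 * P.card = 3 * Z.card := by
    have h3 : (c.re - 2) * (2 * P.card - 3 * Z.card) = 0 := by
      linear_combination 2 * h1r - 3 * h2r
    rcases mul_eq_zero.1 h3 with h4 | h4
    · exfalso; linarith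
    · have h5 : (2 : ℝ) * P.card = 3 * Z.card := by linarith
      exact_mod_cast h5
  have hP3 : P.card = 3 := by omega
  have hc3 : c = 3 := by
    rw [hP3] at h1
    push_cast at h1
    linear_combination (1/3) * h1
  subst hc3
  have h12 : (1 / 2 : ℂ) ∈ P := by
    have := hPodd _ hP52
    norm_num at this
    norm_num
    exact this
  -- the third element
  have hw : ∀ J ∈ P, J = 5 / 2 ∨ J = 1 / 2 ∨ J = 3 / 2 := by
    intro J hJ
    by_contra hcon
    push Not at hcon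
    obtain ⟨n1, n2, n3⟩ := hcon
    have hJ' := hPodd J hJ
    have hsub : ({5 / 2, 1 / 2, J, 3 - J} : Finset ℂ) ⊆ P := by
      intro x hx
      simp only [Finset.mem_insert, Finset.mem_singleton] at hx
      rcases hx with rfl | rfl | rfl | rfl
      · exact hP52
      · exact h12
      · exact hJ
      · exact hJ'
    have hcard : ({5 / 2, 1 / 2, J, 3 - J} : Finset ℂ).card = 4 := by
      rw [Finset.card_insert_of_notMem, Finset.card_insert_of_notMem,
        Finset.card_insert_of_notMem, Finset.card_singleton]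
      · rw [Finset.mem_singleton]
        intro h
        apply n3
        linear_combination (1/2) * h
      · rw [Finset.mem_insert, Finset.mem_singleton]
        rintro (h | h)
        · exact n2 h.symm
        · apply n1
          linear_combination h
      · rw [Finset.mem_insert, Finset.mem_insert, Finset.mem_singleton]
        rintro (h | h | h)
        · norm_num at h
        · exact n1 h.symm
        · apply n2
          linear_combination h
    have := Finset.card_le_card hsub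
    omega
  set T := Tg (1 / 2) with hT
  have hT0 : T ≠ 0 := Tg_ne _
  have hJT : Jf T = 1 / 2 := Jf_Tg _
  have hq : T ^ 2 - T / 2 + 1 = 0 := by
    have : T + T⁻¹ = 1 / 2 := hJT
    field_simp at this
    linear_combination (1/2) * this
  have hT1 : T ≠ 1 := by
    intro h; rw [h] at hq; norm_num at hq
  have hTm : T ≠ -1 := by
    intro h; rw [h] at hq; norm_num at hq
  have hT2 : T ≠ 2 := by
    intro h; rw [h] at hq; norm_num at hq
  have hmem := hPinv T hT0 hT1 hTm hT2 (by rw [hJT]; exact h12)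
  have h1T : 1 - T ≠ 0 := sub_ne_zero.2 (Ne.symm hT1)
  have hJ1T : Jf (1 - T) * (1 - T) = (1 - T) ^ 2 + 1 := by
    unfold Jf
    field_simp
  rcases hw _ hmem with h | h | h
  · rw [h] at hJ1T
    have : T = 3 / 2 := by linear_combination -hJ1T - hq
    rw [this] at hq
    norm_num at hq
  · rw [h] at hJ1T
    have : T = 1 / 2 := by linear_combination hJ1T + hq
    rw [this] at hq
    norm_num at hq
  · rw [h] at hJ1T
    have : (0 : ℂ) = 1 := by linear_combination -2 * hJ1T - 2 * hq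
    norm_num at this

end Pool.Agent.MP_ae5b4e_an_GENL
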