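import Mathlib
import Pool.Agent.Lib.MP_ae5b4e_an_GENL.FlexE

/-!
# MP_ae5b4e_an, general involutions: the bound `Re d ≤ 1/2` at an ordinary flex, conclusion
-/

noncomputable section

namespace Pool.Agent.MP_ae5b4e_an_GENL

open Filter Topology

variable {d : ℂ} {Λ : ℂ → ℂ} {R : ℝ} {L : ℂ → ℂ} {R1 : ℝ}

theorem Jf_one : Jf 1 = 2 := by unfold Jf; norm_num

theorem Jf_neg_one : Jf (-1) = -2 := by unfold Jf; norm_num

theorem Jf_two : Jf 2 = 5 / 2 := by unfold Jf; norm_num

/-- the poles are in `{Re J ≤ 5/2}` -/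
theorem FlexGlob.res_right (g : FlexGlob d Λ R L R1) (hd : 1 / 2 < d.re) {J0 : ℂ}
    (hJ0 : 5 / 2 < J0.re) : IsRes L J0 0 := by
  have hε : 0 < 3 * d.re - 3 / 2 := by linarith
  have key : ∀ n : ℕ, ∀ J : ℂ, 5 / 2 < J.re → |R| + |R1| - n * (3 * d.re - 3 / 2) < J.re →
      IsRes L J 0 := by
    intro n
    induction n with
    | zero =>
      intro J h1 h2
      have h3 := Complex.re_le_norm J
      have hRn := abs_nonneg R
      have hRn' := abs_nonneg R1
      have hRl := le_abs_self R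
      have hRl' := le_abs_self R1
      simp only [CharP.cast_eq_zero, zero_mul, sub_zero] at h2
      exact g.res_far (by linarith) (by linarith)
    | succ n ih =>
      intro J h1 h2
      have hT0 := Tg_ne J
      have hJT := Jf_Tg J
      have hT1 : Tg J ≠ 1 := by
        intro h; rw [h, Jf_one] at hJT; rw [← hJT] at h1; norm_num at h1
      have hTm : Tg J ≠ -1 := by
        intro h; rw [h, Jf_neg_one] at hJT; rw [← hJT] at h1; norm_num at h1
      have hT2 : Tg J ≠ 2 := by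
        intro h; rw [h, Jf_two] at hJT; rw [← hJT] at h1; norm_num at h1
      have h3 := MF_re (d := d) (Tg_norm J) hT1
      rw [hJT] at h3
      push_cast at h2
      have h4 := g.move hT0 hT1 hTm hT2 (ih (MF d (Tg J)) (by linarith) (by linarith))
      rwa [hJT] at h4
  obtain ⟨n, hn⟩ := exists_nat_gt ((|R| + |R1| - J0.re) / (3 * d.re - 3 / 2))
  rw [div_lt_iff₀ hε] at hn
  exact key n J0 hJ0 (by linarith)

theorem FlexGlob.res_five_half (g : FlexGlob d Λ R L R1) (hd : 1 / 2 < d.re) :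
    IsRes L (5 / 2) (-d) := by
  have hM0 : MF d 2 = 3 * d + 3 := by
    unfold MF Jf
    norm_num
    ring
  have h1 : IsRes L (MF d 2) 0 := by
    refine g.res_right hd ?_
    rw [hM0]
    simp
    linarith
  have h2 : IsRes (fun T => L (MF d T) * Jd (T - 1)) 2 0 := by
    have h3 := h1.comp (MF_tendsto (d := d) (T0 := 2) (by norm_num))
    have h4 : Tendsto (fun T : ℂ => T / (T - 1)) (𝓝[≠] 2) (𝓝 2) := by
      have h5 : ContinuousAt (fun T : ℂ => T / (T - 1)) 2 :=
        ContinuousAt.div (by fun_prop) (by fun_prop) (by norm_num)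
      have h6 := h5.tendsto
      norm_num at h6
      exact h6.mono_left nhdsWithin_le_nhds
    have h5 := h3.mul h4
    rw [zero_mul] at h5
    refine h5.congr' ?_
    filter_upwards [ev_ne 2 1, ev_ne 2 2] with T hT1 hT2
    simp only [Function.comp_apply]
    rw [MF_sub_MF hT1 (by norm_num)]
    have h6 : T - 1 ≠ 0 := sub_ne_zero.2 hT1
    have h7 : (T - 2) * (1 - ((T - 1) * (2 - 1))⁻¹) * (T / (T - 1)) = (T - 2) * Jd (T - 1) := by
      unfold Jd
      have h8 : (2 : ℂ) - 1 = 1 := by norm_num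
      rw [h8, mul_one]
      field_simp
      ring
    linear_combination L (MF d T) * h7
  have h3 := (res_rat_two d).add h2
  rw [add_zero] at h3
  have h4 := res_down (L := L) (T0 := 2) (ρ := -d) (by norm_num) (by norm_num) (by norm_num)
    (h3.congr (by
      filter_upwards [g.fe (T0 := 2) (by norm_num)] with T hT
      rw [hT]
      rfl))
  rwa [Jf_two] at h4

theorem FlexGlob.res_two (g : FlexGlob d Λ R L R1) : IsRes L 2 (1 / 2) := by
  suffices hs : IsRes L (Jf 1) (1 / 2) by rwa [Jf_one] at hs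
  refine Tendsto.mono_left ?_ (nhdsNE_le_map one_ne_zero)
  rw [tendsto_map'_iff]
  have h4 : Tendsto (fun T : ℂ => T / (T + 1)) (𝓝[≠] 1) (𝓝 (1 / 2)) := by
    have h5 : ContinuousAt (fun T : ℂ => T / (T + 1)) 1 :=
      ContinuousAt.div (by fun_prop) (by fun_prop) (by norm_num)
    have h6 := h5.tendsto
    norm_num at h6
    exact h6.mono_left nhdsWithin_le_nhds
  have h5 := (lim_one g.sol).mul h4
  rw [one_mul] at h5
  refine h5.congr' ?_
  filter_upwards [ev_ne 1 1, ev_ne 1 0, ev_ne 1 (-1), g.fe one_ne_zero,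
    ev_norm (tendsto_MF d) R1] with T hT1 hT0 hTm hT hM
  simp only [Function.comp_apply]
  have h6 : RE d Λ T = L (Jf T) * Jd T := by
    rw [hT]
    exact RE_congr (g.eq _ hM).symm
  rw [h6]
  have h7 : T + 1 ≠ 0 := fun h => hTm (eq_neg_of_add_eq_zero_left h)
  have h8 : T - 1 ≠ 0 := sub_ne_zero.2 hT1
  have h9 : (T - 1) * Jd T * (T / (T + 1)) = Jf T - Jf 1 := by
    rw [Jf_one]
    unfold Jd Jf
    field_simp
    ring
  linear_combination L (Jf T) * h9

theorem FlexGlob.res_neg_two (g : FlexGlob d Λ R L R1) (hd : 1 / 2 < d.re) :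
    IsRes L (-2) 0 := by
  have hM0 : MF d (-1) = 3 * d + 1 - 5 / 2 := by
    unfold MF Jf
    norm_num
    ring
  have h1 : IsRes L (MF d (-1)) (-d) := by
    rw [hM0]
    exact g.res_odd (g.res_five_half hd)
  have h2 := (res_rat_neg d).add (res_MF (T0 := -1) (by norm_num) (by norm_num) (by norm_num) h1)
  rw [add_neg_cancel] at h2
  have h3 : IsRes (fun T => L (Jf T) * Jd T) (-1) 0 := by
    refine h2.congr ?_
    filter_upwards [g.fe (T0 := -1) (by norm_num)] with T hT
    rw [hT]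
    rfl
  rw [← Jf_neg_one]
  refine Tendsto.mono_left ?_ (nhdsNE_le_map (by norm_num))
  rw [tendsto_map'_iff]
  have h4 : Tendsto (fun T : ℂ => T / (T - 1)) (𝓝[≠] (-1)) (𝓝 (1 / 2)) := by
    have h5 : ContinuousAt (fun T : ℂ => T / (T - 1)) (-1) :=
      ContinuousAt.div (by fun_prop) (by fun_prop) (by norm_num)
    have h6 := h5.tendsto
    norm_num at h6
    exact h6.mono_left nhdsWithin_le_nhds
  have h5 := Tendsto.mul h3 h4
  rw [zero_mul] at h5
  refine h5.congr' ?_
  filter_upwards [ev_ne (-1) 1, ev_ne (-1) 0, ev_ne (-1) (-1)] with T hT1 hT0 hTm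
  simp only [Function.comp_apply]
  have h7 : T + 1 ≠ 0 := fun h => hTm (eq_neg_of_add_eq_zero_left h)
  have h8 : T - 1 ≠ 0 := sub_ne_zero.2 hT1
  have h9 : (T - -1) * Jd T * (T / (T - 1)) = Jf T - Jf (-1) := by
    rw [Jf_neg_one]
    unfold Jd Jf
    field_simp
    ring
  linear_combination L (Jf T) * h9

/-- all poles are simple, with residue `-d` or `1/2` -/
theorem FlexGlob.res_exists (g : FlexGlob d Λ R L R1) (hd : 1 / 2 < d.re) (J0 : ℂ) :
    ∃ ρ, IsRes L J0 ρ ∧ (ρ = 0 ∨ ρ = -d ∨ ρ = 1 / 2) := by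
  have hε : 0 < 3 * d.re - 3 / 2 := by linarith
  have key : ∀ n : ℕ, ∀ J : ℂ, 3 - n * (3 * d.re - 3 / 2) < J.re →
      ∃ ρ, IsRes L J ρ ∧ (ρ = 0 ∨ ρ = -d ∨ ρ = 1 / 2) := by
    intro n
    induction n with
    | zero =>
      intro J h1
      simp only [CharP.cast_eq_zero, zero_mul, sub_zero] at h1
      exact ⟨0, g.res_right hd (by linarith), Or.inl rfl⟩
    | succ n ih =>
      intro J h2
      have hT0 := Tg_ne J
      have hJT := Jf_Tg J
      push_cast at h2
      by_cases hT1 : Tg J = 1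
      · rw [hT1, Jf_one] at hJT
        rw [← hJT]
        exact ⟨_, g.res_two, Or.inr (Or.inr rfl)⟩
      by_cases hTm : Tg J = -1
      · rw [hTm, Jf_neg_one] at hJT
        rw [← hJT]
        exact ⟨_, g.res_neg_two hd, Or.inl rfl⟩
      by_cases hT2 : Tg J = 2
      · rw [hT2, Jf_two] at hJT
        rw [← hJT]
        exact ⟨_, g.res_five_half hd, Or.inr (Or.inl rfl)⟩
      have h3 := MF_re (d := d) (Tg_norm J) hT1
      rw [hJT] at h3
      obtain ⟨ρ, h4, h5⟩ := ih (MF d (Tg J)) (by linarith)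
      refine ⟨ρ, ?_, h5⟩
      have h6 := g.move hT0 hT1 hTm hT2 h4
      rwa [hJT] at h6
  obtain ⟨n, hn⟩ := exists_nat_gt ((3 - J0.re) / (3 * d.re - 3 / 2))
  rw [div_lt_iff₀ hε] at hn
  exact key n J0 (by linarith)

/-- finiteness of the set of poles -/
theorem FlexGlob.finite (g : FlexGlob d Λ R L R1) {ρ : ℂ} (hρ : ρ ≠ 0) :
    {J : ℂ | IsRes L J ρ}.Finite := by
  by_contra hinf
  have hinf : {J : ℂ | IsRes L J ρ}.Infinite := hinf
  have hsub : {J : ℂ | IsRes L J ρ} ⊆ Metric.closedBall 0 (max R R1) := by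
    intro J hJ
    rw [mem_closedBall_zero_iff]
    by_contra hn
    push Not at hn
    rw [max_lt_iff] at hn
    exact hρ (IsRes.unique hJ (g.res_far hn.1 hn.2))
  obtain ⟨x, _, hx⟩ := hinf.exists_accPt_of_subset_isCompact (isCompact_closedBall _ _) hsub
  rw [accPt_iff_frequently_nhdsNE] at hx
  refine hx ?_
  filter_upwards [(g.mero x).eventually_analyticAt] with y hy hy'
  exact hρ (IsRes.unique hy' (IsRes_of_analytic hy))

/-- **the bound at an ordinary flex** -/
theorem flex_bound {d : ℂ} {Λ : ℂ → ℂ} {R : ℝ} (h : FlexSol d Λ R) : d.re ≤ 1 / 2 := by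
  by_contra hlt
  push Not at hlt
  obtain ⟨L, R1, g⟩ := exists_glob h hlt
  have hd0 : -d ≠ 0 := by
    intro h0
    have := congrArg Complex.re h0
    simp at this
    linarith
  have h12 : (1 / 2 : ℂ) ≠ 0 := by norm_num
  have hd12 : -d ≠ 1 / 2 := by
    intro h0
    have := congrArg Complex.re h0
    norm_num at this
    linarith
  set P : Finset ℂ := (g.finite hd0).toFinset with hP
  set Z : Finset ℂ := (g.finite h12).toFinset with hZ
  have hPm : ∀ J, J ∈ P ↔ IsRes L J (-d) := by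
    intro J; rw [hP, Set.Finite.mem_toFinset]; rfl
  have hZm : ∀ J, J ∈ Z ↔ IsRes L J (1 / 2) := by
    intro J; rw [hZ, Set.Finite.mem_toFinset]; rfl
  have hc : 5 / 2 < (3 * d + 1).re := by
    simp
    linarith
  have hinv : ∀ ρ : ℂ, ∀ T : ℂ, T ≠ 0 → T ≠ 1 → T ≠ -1 → T ≠ 2 → IsRes L (Jf T) ρ →
      IsRes L (Jf (1 - T)) ρ := by
    intro ρ T hT0 hT1 hTm hT2 hT
    obtain ⟨ρ', h1, _⟩ := g.res_exists hlt (MF d T)
    have h2 := g.move hT0 hT1 hTm hT2 h1
    have h3 : ρ' = ρ := IsRes.unique h2 hT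
    subst h3
    have h4 := g.res_odd h1
    have h5 : 3 * d + 1 - MF d T = Jf (1 - T) := by
      unfold MF
      have : T - 1 = -(1 - T) := by ring
      rw [this, Jf_neg]
      ring
    rwa [h5] at h4
  refine count_contra (c := 3 * d + 1) (P := P) (Z := Z) hc ?_ ?_ ?_ ?_ ?_ ?_ ?_ ?_ ?_ ?_
  · intro J hJ
    rw [hPm] at hJ ⊢
    exact g.res_odd hJ
  · intro J hJ
    rw [hZm] at hJ ⊢
    exact g.res_odd hJ
  · rw [hPm]; exact g.res_five_half hlt
  · rw [hPm]; intro h1; exact hd12 (IsRes.unique h1 g.res_two)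
  · rw [hPm]; intro h1; exact hd0 (IsRes.unique h1 (g.res_neg_two hlt))
  · rw [hZm]; exact g.res_two
  · rw [hZm]; intro h1; exact hd12 (IsRes.unique (g.res_five_half hlt) h1)
  · rw [hZm]; intro h1; exact h12 (IsRes.unique h1 (g.res_neg_two hlt))
  · intro T h0 h1 h2 h3 h4
    rw [hPm] at h4 ⊢
    exact hinv _ T h0 h1 h2 h3 h4
  · intro T h0 h1 h2 h3 h4
    rw [hZm] at h4 ⊢
    exact hinv _ T h0 h1 h2 h3 h4

end Pool.Agent.MP_ae5b4e_an_GENL
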